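import Pool.Agent.Run7.h922.K.Defs

/-!
# Basic facts on the iteration and on the stages
-/

namespace Run7.h922.K

open Ordinal

theorem iter_zero (F : Cantor → Cantor) : iter F 0 = fun _ => false := by
  simp [iter, Ordinal.limitRecOn_zero]

theorem iter_succ (F : Cantor → Cantor) (β : Ordinal.{0}) :
    iter F (β + 1) = iter F β ⊔ F (iter F β) := by
  simp only [iter, Ordinal.limitRecOn_add_one]

theorem iter_limit (F : Cantor → Cantor) {β : Ordinal.{0}} (h : Order.IsSuccLimit β) :
    iter F β = ⨆ γ : Set.Iio β, iter F γ.1 := by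
  conv_lhs => rw [iter, Ordinal.limitRecOn_limit _ _ _ _ h]
  rfl

theorem iter_eq (F : Cantor → Cantor) (β : Ordinal.{0}) :
    iter F β = ⨆ γ : Set.Iio β, (iter F γ.1 ⊔ F (iter F γ.1)) := by
  induction β using Ordinal.limitRecOn with
  | zero =>
    rw [iter_zero]
    apply le_antisymm
    · intro n; simp
    · refine iSup_le fun γ => ?_
      exact absurd (Set.mem_Iio.1 γ.2) not_lt_zero
  | add_one β IH =>
    rw [iter_succ]
    apply le_antisymm
    · exact le_iSup (fun γ : Set.Iio (β + 1) => (iter F γ.1 ⊔ F (iter F γ.1)))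
        ⟨β, by simp⟩
    · refine iSup_le fun γ => ?_
      rcases lt_or_eq_of_le (Order.lt_add_one_iff.1 (Set.mem_Iio.1 γ.2)) with h | h
      · refine le_trans ?_ le_sup_left
        rw [IH]
        exact le_iSup (fun γ : Set.Iio β => (iter F γ.1 ⊔ F (iter F γ.1))) ⟨γ.1, h⟩
      · rw [h]
  | limit β hβ IH =>
    conv_lhs => rw [iter_limit F hβ]
    apply le_antisymm
    · exact iSup_mono fun γ => le_sup_left
    · refine iSup_le fun γ => ?_
      rw [← iter_succ]
      exact le_iSup (fun γ : Set.Iio β => iter F γ.1) ⟨γ.1 + 1, hβ.add_one_lt γ.2⟩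

theorem iter_mono (F : Cantor → Cantor) : Monotone (iter F) := by
  intro β γ h
  rw [iter_eq F β, iter_eq F γ]
  refine iSup_le fun δ => ?_
  exact le_iSup (fun γ : Set.Iio γ => (iter F γ.1 ⊔ F (iter F γ.1))) ⟨δ.1, lt_of_lt_of_le δ.2 h⟩

theorem exists_fixed (F : Cantor → Cantor) : ∃ β : Ordinal.{0}, iter F β = iter F (β + 1) := by
  by_contra hne
  push Not at hne
  have h : ∀ β : Ordinal.{0}, ∃ n, iter F β n = false ∧ iter F (β + 1) n = true := by
    intro β
    have h1 : iter F β ≤ iter F (β + 1) := iter_mono F (by simp)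
    by_contra hcon
    push Not at hcon
    apply hne β
    funext n
    have h2 := h1 n
    have h3 := hcon n
    revert h2 h3
    cases iter F β n <;> cases iter F (β + 1) n <;> simp
  choose f hf using h
  apply not_injective_of_ordinal f
  intro β γ hβγ
  by_contra hne'
  rcases lt_or_gt_of_ne hne' with hlt | hlt
  · have h1 : iter F (β + 1) ≤ iter F γ := iter_mono F (Order.add_one_le_of_lt hlt)
    have h2 := h1 (f β)
    rw [(hf β).2, hβγ, (hf γ).1] at h2
    exact Bool.noConfusion (h2 rfl)
  · have h1 : iter F (γ + 1) ≤ iter F β := iter_mono F (Order.add_one_le_of_lt hlt)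
    have h2 := h1 (f γ)
    rw [(hf γ).2, ← hβγ, (hf β).1] at h2
    exact Bool.noConfusion (h2 rfl)

theorem closureOrd_spec (F : Cantor → Cantor) :
    iter F (closureOrd F) = iter F (closureOrd F + 1) :=
  csInf_mem (s := {β | iter F β = iter F (β + 1)}) (exists_fixed F)

theorem ind_closed (F : Cantor → Cantor) : F (Ind F) ≤ Ind F := by
  have h := closureOrd_spec F
  rw [iter_succ] at h
  rw [Ind]
  conv_rhs => rw [h]
  exact le_sup_right

theorem iter_ge (F : Cantor → Cantor) {β : Ordinal.{0}} (h : F (iter F β) ≤ iter F β)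
    {γ : Ordinal.{0}} (hγ : β ≤ γ) : iter F γ = iter F β := by
  refine le_antisymm ?_ (iter_mono F hγ)
  induction γ using WellFoundedLT.induction with
  | _ γ IH =>
    rw [iter_eq F γ]
    refine iSup_le fun δ => ?_
    rcases le_total β δ.1 with h1 | h1
    · have := le_antisymm (IH δ.1 δ.2 h1) (iter_mono F h1)
      rw [this]
      exact sup_le le_rfl h
    · rcases eq_or_lt_of_le h1 with h2 | h2
      · rw [h2]; exact sup_le le_rfl h
      · rw [← iter_succ]
        exact iter_mono F (Order.add_one_le_of_lt h2)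

theorem ind_eq_of_closed (F : Cantor → Cantor) {β : Ordinal.{0}} (h : F (iter F β) ≤ iter F β) :
    Ind F = iter F β := by
  rcases le_total β (closureOrd F) with h1 | h1
  · exact iter_ge F h h1
  · have := iter_ge F (β := closureOrd F) (ind_closed F) h1
    rw [this]; rfl

/-- A bound for `Ind F`. -/
theorem ind_le (F : Cantor → Cantor) (h : Cantor) (hF : ∀ g ≤ h, F g ≤ h) : Ind F ≤ h := by
  have key : ∀ β, iter F β ≤ h := by
    intro β
    induction β using WellFoundedLT.induction with
    | _ β IH =>
      rw [iter_eq F β]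
      exact iSup_le fun δ => sup_le (IH δ.1 δ.2) (hF _ (IH δ.1 δ.2))
  exact key _

theorem ind_const_false : Ind (fun _ _ => false) = fun _ => false := by
  apply le_antisymm
  · exact ind_le _ _ (fun g _ => le_rfl)
  · intro n; simp

theorem iter_strict (F : Cantor → Cantor) {β γ : Ordinal.{0}} (h : β < γ)
    (hγ : γ ≤ closureOrd F) : iter F β < iter F γ := by
  refine lt_of_le_of_ne (iter_mono F h.le) fun heq => ?_
  have h1 : iter F (β + 1) ≤ iter F β := by
    rw [heq]; exact iter_mono F (Order.add_one_le_of_lt h)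
  have h2 : iter F β = iter F (β + 1) := le_antisymm (iter_mono F (by simp)) h1
  have h3 : closureOrd F ≤ β := csInf_le' h2
  exact absurd (lt_of_lt_of_le h hγ) (not_lt.2 h3)

/-- The set of the stages of the iteration is countable. -/
theorem countable_range_iter (F : Cantor → Cantor) : (Set.range (iter F)).Countable := by
  have h1 : Set.range (iter F) ⊆ insert (Ind F) (Set.range fun n : ℕ =>
      iter F (sInf {β | iter F (β + 1) n = true})) := by
    rintro _ ⟨β, rfl⟩
    by_cases h : F (iter F β) ≤ iter F β
    · exact Or.inl (ind_eq_of_closed F h).symm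
    · right
      have : ∃ n, F (iter F β) n = true ∧ iter F β n = false := by
        by_contra hcon
        push Not at hcon
        apply h
        intro n
        have h3 := hcon n
        revert h3
        cases iter F β n <;> cases F (iter F β) n <;> simp
      obtain ⟨n, hn1, hn2⟩ := this
      refine ⟨n, ?_⟩
      show iter F (sInf {β | iter F (β + 1) n = true}) = iter F β
      congr 1
      apply le_antisymm
      · apply csInf_le'
        show iter F (β + 1) n = true
        rw [iter_succ]
        simp [hn1]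
      · apply le_csInf
        · refine ⟨β, ?_⟩
          show iter F (β + 1) n = true
          rw [iter_succ]
          simp [hn1]
        · intro γ hγ
          by_contra hlt
          push Not at hlt
          have h4 : iter F (γ + 1) ≤ iter F β := iter_mono F (Order.add_one_le_of_lt hlt)
          have h5 := h4 n
          rw [show iter F (γ + 1) n = true from hγ, hn2] at h5
          exact Bool.noConfusion (h5 rfl)
  exact ((Set.countable_range _).insert _).mono h1

/-! ### Stages -/

theorem stage_def (α : Ordinal.{0}) :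
    stage α = Step fun e fs as c => ∃ β, ∃ _ : β < α, stage β e fs as c := by
  rw [stage]

theorem Step.mono {X Y : ℕ → List Cantor → List ℕ → ℕ → Prop}
    (h : ∀ e fs as c, X e fs as c → Y e fs as c) {e fs as c} (hx : Step X e fs as c) :
    Step Y e fs as c := by
  cases hx with
  | s1 => exact Step.s1 _ _ _
  | s2 => exact Step.s2 _ _ _
  | s3 => exact Step.s3 _ _ _
  | s4 d e fs as b c h1 h2 => exact Step.s4 d e fs as b c (h _ _ _ _ h1) (h _ _ _ _ h2)
  | s5zero d e fs as c h1 => exact Step.s5zero d e fs as c (h _ _ _ _ h1)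
  | s5succ d e n fs as b c h1 h2 =>
    exact Step.s5succ d e n fs as b c (h _ _ _ _ h1) (h _ _ _ _ h2)
  | s6num d fs as a as' c h2 => exact Step.s6num d fs as a as' c (h _ _ _ _ h2)
  | s6fun d fs f fs' as c h2 => exact Step.s6fun d fs f fs' as c (h _ _ _ _ h2)
  | s7 => exact Step.s7 _ _ _ _
  | s8 d n fs as F h1 =>
    refine Step.s8 d n fs as F fun g m => ?_
    obtain ⟨b, hb, hb'⟩ := h1 g m
    exact ⟨b, h _ _ _ _ hb, hb'⟩
  | s9 d fs fs' as as' c h1 => exact Step.s9 d fs fs' as as' c (h _ _ _ _ h1)

theorem stage_mono {α β : Ordinal.{0}} (h : α ≤ β) {e fs as c} (hx : stage α e fs as c) :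
    stage β e fs as c := by
  rw [stage_def] at hx ⊢
  exact hx.mono fun e fs as c ⟨γ, hγ, hc⟩ => ⟨γ, lt_of_lt_of_le hγ h, hc⟩

theorem stage_of_step {α : Ordinal.{0}} {e fs as c}
    (h : Step (fun e fs as c => ∃ β, ∃ _ : β < α, stage β e fs as c) e fs as c) :
    stage α e fs as c := by
  rw [stage_def]; exact h

end Run7.h922.K
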