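import Pool.Agent.Run7.h922.K.Val

/-!
# Certificates for computations: countable objects that determine the values
-/

namespace Run7.h922.K

open Encodable

/-- Claims: index, references to the functions, number arguments, value. -/
abbrev Claim := ℕ × List ℕ × List ℕ × ℕ

abbrev Key := ℕ × List ℕ × List ℕ

variable (T : ℕ → Cantor) (S : Key × ℕ → Prop) (U : Claim → Prop)

/-- `T i < T j` -/
def Lt (i j : ℕ) : Prop :=
  (∀ k, T i k = true → T j k = true) ∧ ∃ k, T j k = true ∧ ¬ T i k = true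

theorem lt_iff (i j : ℕ) : Lt T i j ↔ T i < T j := by
  rw [lt_iff_le_not_ge, Lt]
  apply and_congr
  · exact ⟨fun h k => by
      have := h k
      revert this
      cases T i k <;> cases T j k <;> simp, fun h k hk => by
      have := h k
      rw [hk] at this
      exact this rfl⟩
  · constructor
    · rintro ⟨k, h1, h2⟩ h
      have := h k
      rw [h1] at this
      exact h2 (this rfl)
    · intro h
      by_contra hcon
      push Not at hcon
      apply h
      intro k
      have := hcon k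
      revert this
      cases T i k <;> cases T j k <;> simp

/-- The claims below determine the result of the induction for the key `y`. -/
def Chain (y : Key) (n c : ℕ) : Prop :=
  WellFounded (fun i j => S (y, i) ∧ S (y, j) ∧ Lt T i j) ∧
  (∀ j, S (y, j) → ∀ m, ∃ c', U (y.1, j :: y.2.1, m :: y.2.2, c')) ∧
  (∀ j, S (y, j) → ∀ k, (T j k = true ↔ ∃ i, S (y, i) ∧ Lt T i j ∧
    (T i k = true ∨ ∃ c', c' ≠ 0 ∧ U (y.1, i :: y.2.1, k :: y.2.2, c')))) ∧
  ∃ j, S (y, j) ∧ (∀ k, (∃ c', c' ≠ 0 ∧ U (y.1, j :: y.2.1, k :: y.2.2, c')) → T j k = true) ∧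
    ((T j n = true ∧ c = 1) ∨ (¬ T j n = true ∧ c = 0))

/-- The claim `(e, rs, as, c)` is justified by the claims in `U`. -/
def Just (e : ℕ) (rs as : List ℕ) (c : ℕ) : Prop :=
  (∃ a as', e = Nat.pair 1 0 ∧ as = a :: as' ∧ c = a + 1) ∨
  (e = Nat.pair 2 c) ∨
  (∃ as', e = Nat.pair 3 0 ∧ as = c :: as') ∨
  (∃ d e' b, e = Nat.pair 4 (Nat.pair d e') ∧ U (e', rs, as, b) ∧ U (d, rs, b :: as, c)) ∨
  (∃ d e' as', e = Nat.pair 5 (Nat.pair d e') ∧ as = 0 :: as' ∧ U (e', rs, as', c)) ∨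
  (∃ d e' n as' b, e = Nat.pair 5 (Nat.pair d e') ∧ as = (n + 1) :: as' ∧
    U (e, rs, n :: as', b) ∧ U (d, rs, n :: b :: as', c)) ∨
  (∃ d a as₁ as₂, e = Nat.pair 6 (Nat.pair (Nat.pair 0 (List.length as₁)) d) ∧
    as = as₁ ++ a :: as₂ ∧ U (d, rs, a :: (as₁ ++ as₂), c)) ∨
  (∃ d j rs₁ rs₂, e = Nat.pair 6 (Nat.pair (Nat.pair 1 (List.length rs₁)) d) ∧
    rs = rs₁ ++ j :: rs₂ ∧ U (d, j :: (rs₁ ++ rs₂), as, c)) ∨
  (∃ j rs' a as', e = Nat.pair 7 0 ∧ rs = j :: rs' ∧ as = a :: as' ∧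
    ((T j a = true ∧ c = 1) ∨ (¬ T j a = true ∧ c = 0))) ∨
  (∃ d n as', e = Nat.pair 8 d ∧ as = n :: as' ∧ Chain T S U (d, rs, as') n c) ∨
  (∃ d as₁ as₂ rs₁ rs₂, e = Nat.pair 9 (Nat.pair (List.length as₁) (List.length rs₁)) ∧
    as = d :: (as₁ ++ as₂) ∧ rs = rs₁ ++ rs₂ ∧ U (d, rs₁, as₁, c))

/-- `F` is the functional computed by the key. -/
def IsF (d : ℕ) (fs : List Cantor) (as : List ℕ) (F : Cantor → Cantor) : Prop :=
  ∀ g m, ∃ b, Computes d (g :: fs) (m :: as) b ∧ F g m = decide (b ≠ 0)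

theorem IsF.unique {d : ℕ} {fs : List Cantor} {as : List ℕ} {F F' : Cantor → Cantor}
    (h : IsF d fs as F) (h' : IsF d fs as F') : F = F' := by
  funext g m
  obtain ⟨b, h1, h2⟩ := h g m
  obtain ⟨b', h3, h4⟩ := h' g m
  rw [h2, h4, h1.unique h3]

/-- If the claim has a value at all, then it is the claimed one. -/
def Sound (x : Claim) : Prop := ∀ c, Computes x.1 (x.2.1.map T) x.2.2.1 c → c = x.2.2.2

variable {T S U}

theorem chain_sound (hU : ∀ y, U y → Sound T y) {d : ℕ} {rs as : List ℕ} {n c : ℕ}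
    (h : Chain T S U (d, rs, as) n c) {F : Cantor → Cantor} (hF : IsF d (rs.map T) as F) :
    (Ind F n).toNat = c := by
  obtain ⟨hwf, h1, h2, j, hj, h3, h4⟩ := h
  -- the values of `F` are determined
  have hval : ∀ i m c', U (d, i :: rs, m :: as, c') → F (T i) m = decide (c' ≠ 0) := by
    intro i m c' hc'
    obtain ⟨b, hb, hb'⟩ := hF (T i) m
    have : b = c' := hU _ hc' b hb
    rw [hb', this]
  have hval' : ∀ i, S ((d, rs, as), i) → ∀ m,
      ((∃ c', c' ≠ 0 ∧ U (d, i :: rs, m :: as, c')) ↔ F (T i) m = true) := by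
    intro i hi m
    constructor
    · rintro ⟨c', hc', hu⟩
      rw [hval i m c' hu]; simpa using hc'
    · intro hm
      obtain ⟨c', hu⟩ := h1 i hi m
      refine ⟨c', ?_, hu⟩
      rw [hval i m c' hu] at hm
      simpa using hm
  have key : ∀ i, S ((d, rs, as), i) → ∃ β, T i = iter F β := by
    intro i
    induction i using hwf.induction with
    | _ i IH =>
    intro hi
    choose β hβ using fun k : {k // S ((d, rs, as), k) ∧ Lt T k i} => IH k.1 ⟨k.2.1, hi, k.2.2⟩ k.2.1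
    refine ⟨⨆ k : {k // S ((d, rs, as), k) ∧ Lt T k i}, (β k + 1), ?_⟩
    rw [iter_eq]
    apply le_antisymm
    · intro k
      by_cases hk : T i k = true
      · obtain ⟨l, hl, hlt, hl'⟩ := (h2 i hi k).1 hk
        have h5 : (iter F (β ⟨l, hl, hlt⟩) ⊔ F (iter F (β ⟨l, hl, hlt⟩))) ≤
            ⨆ γ : Set.Iio (⨆ k : {k // S ((d, rs, as), k) ∧ Lt T k i}, (β k + 1)),
              (iter F γ.1 ⊔ F (iter F γ.1)) := by
          refine le_iSup (fun γ : Set.Iio (⨆ k : {k // S ((d, rs, as), k) ∧ Lt T k i},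
            (β k + 1)) => (iter F γ.1 ⊔ F (iter F γ.1))) ⟨β ⟨l, hl, hlt⟩, ?_⟩
          rw [Set.mem_Iio]
          refine lt_of_lt_of_le (Order.lt_add_one_iff.2 le_rfl)
            (Ordinal.le_iSup (fun k : {k // S ((d, rs, as), k) ∧ Lt T k i} => β k + 1)
              ⟨l, hl, hlt⟩)
        refine le_trans ?_ (h5 k)
        rw [← hβ ⟨l, hl, hlt⟩, hk]
        rcases hl' with hl' | hl'
        · show true ≤ (T l k ⊔ F (T l) k)
          rw [hl']; simp
        · show true ≤ (T l k ⊔ F (T l) k)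
          rw [(hval' l hl k).1 hl']; simp
      · rw [eq_false_of_ne_true hk]; exact Bool.false_le _
    · refine iSup_le fun γ => ?_
      obtain ⟨l, hl⟩ := (Ordinal.lt_iSup_iff).1 (Set.mem_Iio.1 γ.2)
      rw [← iter_succ]
      refine (iter_mono F (Order.add_one_le_of_lt hl)).trans ?_
      rw [iter_succ, ← hβ l]
      intro k
      have h6 := (h2 i hi k).2
      show (T l k ⊔ F (T l) k) ≤ T i k
      by_cases hk : T l k = true ∨ F (T l) k = true
      · have : T i k = true := by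
          apply h6
          refine ⟨l.1, l.2.1, l.2.2, ?_⟩
          rcases hk with hk | hk
          · exact Or.inl hk
          · exact Or.inr ((hval' l.1 l.2.1 k).2 hk)
        rw [this]; exact Bool.le_true _
      · push Not at hk
        rw [eq_false_of_ne_true hk.1, eq_false_of_ne_true hk.2]
        exact Bool.false_le _
  obtain ⟨β, hβ⟩ := key j hj
  have h7 : F (iter F β) ≤ iter F β := by
    rw [← hβ]
    intro k
    by_cases hk : F (T j) k = true
    · rw [h3 k ((hval' j hj k).2 hk)]; exact Bool.le_true _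
    · rw [eq_false_of_ne_true hk]; exact Bool.false_le _
  rw [ind_eq_of_closed F h7, ← hβ]
  rcases h4 with ⟨h4, rfl⟩ | ⟨h4, rfl⟩
  · rw [h4]; rfl
  · rw [eq_false_of_ne_true h4]; rfl

theorem just_sound (hU : ∀ y, U y → Sound T y) {e : ℕ} {rs as : List ℕ} {c : ℕ}
    (h : Just T S U e rs as c) : Sound T (e, rs, as, c) := by
  intro c' hc
  have hs := computes_step hc
  change Step Computes e (rs.map T) as c' at hs
  show c' = c
  rcases h with ⟨a, as', rfl, rfl, rfl⟩ | rfl | ⟨as', rfl, rfl⟩ | ⟨d, e', b, rfl, h1, h2⟩ |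
    ⟨d, e', as', rfl, rfl, h1⟩ | ⟨d, e', n, as', b, rfl, rfl, h1, h2⟩ |
    ⟨d, a, as₁, as₂, rfl, rfl, h1⟩ | ⟨d, j, rs₁, rs₂, rfl, rfl, h1⟩ |
    ⟨j, rs', a, as', rfl, rfl, rfl, h1⟩ | ⟨d, n, as', rfl, rfl, h1⟩ |
    ⟨d, as₁, as₂, rs₁, rs₂, rfl, rfl, rfl, h1⟩
  · obtain ⟨a', as'', h1, h2⟩ := hs.inv1
    cases h1; exact h2
  · exact hs.inv2
  · obtain ⟨as'', h1⟩ := hs.inv3
    cases h1; rfl
  · obtain ⟨b', h3, h4⟩ := hs.inv4
    obtain rfl : b' = b := hU _ h1 _ h3
    exact hU _ h2 _ h4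
  · rcases hs.inv5 with ⟨as'', h2, h3⟩ | ⟨n, as'', b, h2, -, -⟩
    · cases h2; exact hU _ h1 _ h3
    · cases h2
  · rcases hs.inv5 with ⟨as'', h3, -⟩ | ⟨n', as'', b', h3, h4, h5⟩
    · cases h3
    · cases h3
      obtain rfl : b' = b := hU _ h1 _ h4
      exact hU _ h2 _ h5
  · obtain ⟨as₁', a', as₂', h2, h3, h4⟩ := hs.inv6num
    obtain ⟨rfl, h5⟩ := List.append_inj h3 h2.symm
    obtain ⟨rfl, rfl⟩ := List.cons.inj h5
    exact hU _ h1 _ h4
  · obtain ⟨fs₁', f', fs₂', h2, h3, h4⟩ := hs.inv6fun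
    rw [List.map_append, List.map_cons] at h3
    obtain ⟨rfl, h5⟩ := List.append_inj h3 (by simpa using h2.symm)
    obtain ⟨rfl, rfl⟩ := List.cons.inj h5
    exact hU _ h1 _ (by simpa using h4)
  · obtain ⟨f, fs', a', as'', h2, h3, h4⟩ := hs.inv7
    cases h3
    rw [List.map_cons] at h2
    obtain ⟨rfl, -⟩ := List.cons.inj h2
    rcases h1 with ⟨h1, rfl⟩ | ⟨h1, rfl⟩
    · rw [h4, h1]; rfl
    · rw [h4, eq_false_of_ne_true h1]; rfl
  · obtain ⟨n', as'', F, h2, h3, h4⟩ := hs.inv8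
    cases h2
    rw [h3]
    exact chain_sound hU h1 h4
  · obtain ⟨d', fs₁, fs₂, as₁', as₂', h2, h3, h4, h5, h6⟩ := hs.inv9
    obtain ⟨rfl, h7⟩ := List.cons.inj h5
    obtain ⟨rfl, -⟩ := List.append_inj h7 h2.symm
    rw [List.map_append] at h4
    obtain ⟨rfl, -⟩ := List.append_inj h4 (by simpa using h3.symm)
    exact hU _ h1 _ h6

/-- Soundness of certificates. -/
theorem sound_of_wf {X : Claim → Prop} {L : ℕ → ℕ → Prop} (hL : WellFounded L)
    (hX : ∀ x : Claim, X x →
      Just T S (fun y => X y ∧ L (encode y) (encode x)) x.1 x.2.1 x.2.2.1 x.2.2.2) :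
    ∀ x : Claim, X x → Sound T x := by
  intro x
  induction x using (InvImage.wf (fun x : Claim => encode x) hL).induction with
  | _ x IH =>
    intro hx
    exact just_sound (fun y hy => IH y hy.2 hy.1) (hX x hx)

/-! ### Completeness -/

/-- The true claims. -/
def True' (T : ℕ → Cantor) (x : Claim) : Prop := Computes x.1 (x.2.1.map T) x.2.2.1 x.2.2.2

/-- The length of a claim. -/
noncomputable def rk (T : ℕ → Cantor) (x : Claim) : Ordinal.{0} :=
  sInf {α | stage α x.1 (x.2.1.map T) x.2.2.1 x.2.2.2}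

theorem rk_spec {x : Claim} (h : True' T x) :
    stage (rk T x) x.1 (x.2.1.map T) x.2.2.1 x.2.2.2 :=
  csInf_mem (s := {α | stage α x.1 (x.2.1.map T) x.2.2.1 x.2.2.2}) h

theorem rk_le {x : Claim} {α : Ordinal.{0}} (h : stage α x.1 (x.2.1.map T) x.2.2.1 x.2.2.2) :
    rk T x ≤ α := csInf_le' h

/-- The table is closed under the iterations of computable functionals. -/
def ClosedTable (T : ℕ → Cantor) : Prop :=
  ∀ (d : ℕ) (rs as : List ℕ) (F : Cantor → Cantor), IsF d (rs.map T) as F →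
    ∀ β, ∃ j, T j = iter F β

/-- The table indices of the stages of the iteration. -/
def SS (T : ℕ → Cantor) (x : Key × ℕ) : Prop :=
  ∃ F, IsF x.1.1 (x.1.2.1.map T) x.1.2.2 F ∧ ∃ β, T x.2 = iter F β

theorem chain_complete (hT : ClosedTable T) {d : ℕ} {rs as : List ℕ} {n : ℕ}
    {F : Cantor → Cantor} (hF : IsF d (rs.map T) as F) {U : Claim → Prop}
    (hU : ∀ j m, ∃ b, U (d, j :: rs, m :: as, b))
    (hU' : ∀ j m b, U (d, j :: rs, m :: as, b) → Computes d (T j :: rs.map T) (m :: as) b) :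
    Chain T (SS T) U (d, rs, as) n (Ind F n).toNat := by
  have hval : ∀ j m, (∃ c', c' ≠ 0 ∧ U (d, j :: rs, m :: as, c')) ↔ F (T j) m = true := by
    intro j m
    obtain ⟨b, hb⟩ := hU j m
    obtain ⟨b', hb1, hb2⟩ := hF (T j) m
    have h1 : b' = b := hb1.unique (hU' _ _ _ hb)
    constructor
    · rintro ⟨c', hc', hu⟩
      have h2 : b' = c' := hb1.unique (hU' _ _ _ hu)
      rw [hb2, h2]; simpa using hc'
    · intro h
      refine ⟨b, ?_, hb⟩
      rw [hb2, h1] at h
      simpa using h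
  have hS : ∀ j, SS T ((d, rs, as), j) ↔ ∃ β, T j = iter F β := by
    intro j
    constructor
    · rintro ⟨F', hF', h⟩
      rwa [hF'.unique hF] at h
    · intro h; exact ⟨F, hF, h⟩
  refine ⟨?_, fun j _ m => hU j m, ?_, ?_⟩
  · -- well-foundedness
    have h1 : ∀ j, SS T ((d, rs, as), j) → iter F (sInf {β | T j = iter F β}) = T j := by
      intro j hj
      exact (csInf_mem (s := {β | T j = iter F β}) ((hS j).1 hj)).symm
    refine Subrelation.wf (r := InvImage (· < ·) (fun j => sInf {β | T j = iter F β})) ?_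
      (InvImage.wf _ wellFounded_lt)
    rintro i j ⟨hi, hj, hij⟩
    show sInf {β | T i = iter F β} < sInf {β | T j = iter F β}
    rw [lt_iff] at hij
    by_contra hcon
    push Not at hcon
    have h2 := iter_mono F hcon
    rw [h1 i hi, h1 j hj] at h2
    exact absurd hij (not_lt_of_ge h2)
  · intro j hj k
    obtain ⟨β', hβ'⟩ := (hS j).1 hj
    obtain ⟨β, hβ, hβc⟩ : ∃ β, T j = iter F β ∧ β ≤ closureOrd F := by
      rcases le_total β' (closureOrd F) with h | h
      · exact ⟨β', hβ', h⟩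
      · refine ⟨closureOrd F, ?_, le_rfl⟩
        rw [hβ']; exact iter_ge F (β := closureOrd F) (ind_closed F) h
    constructor
    · intro hk
      rw [hβ, iter_eq] at hk
      by_contra hcon
      have h1 : (⨆ γ : Set.Iio β, (iter F γ.1 ⊔ F (iter F γ.1))) ≤
          fun k' => B (¬ (k' = k)) := by
        refine iSup_le fun γ => ?_
        intro k'
        apply le_B
        intro h2 h3
        subst h3
        apply hcon
        obtain ⟨i, hi⟩ := hT d rs as F hF γ.1
        refine ⟨i, (hS i).2 ⟨_, hi⟩, ?_, ?_⟩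
        · rw [lt_iff, hi, hβ]
          exact iter_strict F γ.2 hβc
        · rw [hval i k', hi]
          have h4 : (iter F γ.1 k' ⊔ F (iter F γ.1) k') = true := h2
          simpa using h4
      have := of_le_B (h1 k) hk
      exact this rfl
    · rintro ⟨i, hi, hij, h⟩
      obtain ⟨γ, hγ⟩ := (hS i).1 hi
      rw [lt_iff, hγ, hβ] at hij
      have h1 : γ < β := by
        by_contra hcon
        push Not at hcon
        exact absurd hij (not_lt_of_ge (iter_mono F hcon))
      have h2 : iter F (γ + 1) ≤ iter F β := iter_mono F (Order.add_one_le_of_lt h1)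
      rw [iter_succ] at h2
      rw [hβ]
      have h3 := h2 k
      rw [hval i k, hγ] at h
      have h4 : (iter F γ k ⊔ F (iter F γ) k) = true := by
        rcases h with h | h <;> rw [h] <;> simp
      have h5 : (iter F γ ⊔ F (iter F γ)) k = true := h4
      rw [h5] at h3
      exact h3 rfl
  · obtain ⟨j, hj⟩ := hT d rs as F hF (closureOrd F)
    refine ⟨j, (hS j).2 ⟨_, hj⟩, ?_, ?_⟩
    · intro k hk
      rw [hval j k, hj] at hk
      rw [hj]
      have := ind_closed F k
      rw [show F (Ind F) k = true from hk] at this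
      exact this rfl
    · rw [hj]
      show (Ind F n = true ∧ (Ind F n).toNat = 1) ∨ (¬ Ind F n = true ∧ (Ind F n).toNat = 0)
      cases Ind F n <;> simp

theorem just_complete (hT : ClosedTable T) {e : ℕ} {rs as : List ℕ} {c : ℕ}
    (h : True' T (e, rs, as, c)) :
    Just T (SS T) (fun y => True' T y ∧ rk T y < rk T (e, rs, as, c)) e rs as c := by
  have hs := rk_spec h
  set α := rk T (e, rs, as, c) with hα
  rw [stage_def] at hs
  have hsub : ∀ (e' : ℕ) (rs' as' : List ℕ) (c' : ℕ),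
      (∃ β, ∃ _ : β < α, stage β e' (rs'.map T) as' c') →
      True' T (e', rs', as', c') ∧ rk T (e', rs', as', c') < α := by
    rintro e' rs' as' c' ⟨β, hβ, h1⟩
    exact ⟨⟨β, h1⟩, lt_of_le_of_lt (rk_le (x := (e', rs', as', c')) h1) hβ⟩
  generalize hfs : rs.map T = fs at hs
  change Step _ e fs as c at hs
  unfold Just
  cases hs with
  | s1 fs a as => exact Or.inl ⟨a, as, rfl, rfl, rfl⟩
  | s2 => exact Or.inr (Or.inl rfl)
  | s3 fs a as => exact Or.inr (Or.inr (Or.inl ⟨_, rfl, rfl⟩))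
  | s4 d e' _ _ b _ h1 h2 =>
    refine Or.inr (Or.inr (Or.inr (Or.inl ⟨d, e', b, rfl, ?_, ?_⟩)))
    · apply hsub; rw [hfs]; exact h1
    · apply hsub; rw [hfs]; exact h2
  | s5zero d e' _ as' _ h1 =>
    refine Or.inr (Or.inr (Or.inr (Or.inr (Or.inl ⟨d, e', as', rfl, rfl, ?_⟩))))
    apply hsub; rw [hfs]; exact h1
  | s5succ d e' n _ as' b _ h1 h2 =>
    refine Or.inr (Or.inr (Or.inr (Or.inr (Or.inr (Or.inl ⟨d, e', n, as', b, rfl, rfl, ?_, ?_⟩)))))
    · apply hsub; rw [hfs]; exact h1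
    · apply hsub; rw [hfs]; exact h2
  | s6num d _ as₁ a as₂ _ h1 =>
    refine Or.inr (Or.inr (Or.inr (Or.inr (Or.inr (Or.inr (Or.inl
      ⟨d, a, as₁, as₂, rfl, rfl, ?_⟩))))))
    apply hsub; rw [hfs]; exact h1
  | s6fun d fs₁ f fs₂ _ _ h1 =>
    obtain ⟨rs₁, rs₂', h2, h3, h4⟩ := List.map_eq_append_iff.1 hfs
    obtain ⟨j, rs₂, h5, h6, h7⟩ := List.map_eq_cons_iff.1 h4
    refine Or.inr (Or.inr (Or.inr (Or.inr (Or.inr (Or.inr (Or.inr (Or.inl
      ⟨d, j, rs₁, rs₂, ?_, ?_, ?_⟩)))))))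
    · rw [← h3, List.length_map]
    · rw [h2, h5]
    · apply hsub
      rw [List.map_cons, List.map_append, h3, h7, h6]
      exact h1
  | s7 f fs' a as' =>
    obtain ⟨j, rs', h5, h6, h7⟩ := List.map_eq_cons_iff.1 hfs
    refine Or.inr (Or.inr (Or.inr (Or.inr (Or.inr (Or.inr (Or.inr (Or.inr (Or.inl
      ⟨j, rs', a, as', rfl, h5, rfl, ?_⟩))))))))
    rw [h6]
    cases f a <;> simp
  | s8 d n _ as' F h1 =>
    refine Or.inr (Or.inr (Or.inr (Or.inr (Or.inr (Or.inr (Or.inr (Or.inr (Or.inr (Or.inl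
      ⟨d, n, as', rfl, rfl, ?_⟩)))))))))
    subst hfs
    apply chain_complete hT (F := F)
    · intro g m
      obtain ⟨b, ⟨β, _, h2⟩, h3⟩ := h1 g m
      exact ⟨b, ⟨β, h2⟩, h3⟩
    · intro j m
      obtain ⟨b, h2, h3⟩ := h1 (T j) m
      refine ⟨b, hsub _ _ _ _ ?_⟩
      rw [List.map_cons]; exact h2
    · intro j m b hb
      have := hb.1
      unfold True' at this
      simpa using this
  | s9 d fs₁ fs₂ as₁ as₂ _ h1 =>
    obtain ⟨rs₁, rs₂, h2, h3, h4⟩ := List.map_eq_append_iff.1 hfs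
    refine Or.inr (Or.inr (Or.inr (Or.inr (Or.inr (Or.inr (Or.inr (Or.inr (Or.inr (Or.inr
      ⟨d, as₁, as₂, rs₁, rs₂, ?_, rfl, h2, ?_⟩)))))))))
    · rw [← h3, List.length_map]
    · apply hsub
      rw [h3]; exact h1

/-! ### The table -/

/-- One step of the closure of a countable set of functions. -/
def NextSet (R : Set Cantor) : Set Cantor :=
  R ∪ ⋃ (d : ℕ) (l : List R) (as : List ℕ),
    {f | ∃ F, IsF d (l.map (fun x => x.1)) as F ∧ f ∈ Set.range (iter F)}

theorem nextSet_countable {R : Set Cantor} (hR : R.Countable) : (NextSet R).Countable := by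
  have : Countable R := hR.to_subtype
  refine hR.union ?_
  refine Set.countable_iUnion fun d => Set.countable_iUnion fun l => Set.countable_iUnion fun as => ?_
  by_cases h : ∃ F, IsF d (l.map (fun x => x.1)) as F
  · obtain ⟨F, hF⟩ := h
    refine (countable_range_iter F).mono ?_
    rintro f ⟨F', hF', hf⟩
    rwa [hF'.unique hF] at hf
  · convert Set.countable_empty
    ext f
    simp only [Set.mem_empty_iff_false, iff_false]
    rintro ⟨F, hF, -⟩
    exact h ⟨F, hF⟩

theorem exists_closedTable : ∃ T : ℕ → Cantor, ClosedTable T := by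
  let R : ℕ → Set Cantor := fun n => Nat.rec {fun _ => false} (fun _ R => NextSet R) n
  have hR : ∀ n, (R n).Countable := by
    intro n
    induction n with
    | zero => exact Set.countable_singleton _
    | succ n IH => exact nextSet_countable IH
  have hmono : Monotone R := monotone_nat_of_le_succ fun n => Set.subset_union_left
  obtain ⟨T, hT⟩ := (Set.countable_iUnion hR).exists_eq_range
    ⟨fun _ => false, Set.mem_iUnion.2 ⟨0, rfl⟩⟩
  refine ⟨T, fun d rs as F hF β => ?_⟩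
  have h1 : ∀ rs : List ℕ, ∃ n, ∀ f ∈ rs.map T, f ∈ R n := by
    intro rs
    induction rs with
    | nil => exact ⟨0, by simp⟩
    | cons j rs IH =>
      obtain ⟨n, hn⟩ := IH
      have : T j ∈ ⋃ n, R n := by rw [hT]; exact ⟨j, rfl⟩
      obtain ⟨m, hm⟩ := Set.mem_iUnion.1 this
      refine ⟨max n m, ?_⟩
      intro f hf
      rw [List.map_cons, List.mem_cons] at hf
      rcases hf with rfl | hf
      · exact hmono (le_max_right n m) hm
      · exact hmono (le_max_left n m) (hn f hf)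
  obtain ⟨n, hn⟩ := h1 rs
  have h2 : iter F β ∈ R (n + 1) := by
    refine Or.inr ?_
    refine Set.mem_iUnion.2 ⟨d, Set.mem_iUnion.2 ⟨(rs.map T).attach.map
      (fun x => ⟨x.1, hn x.1 x.2⟩), Set.mem_iUnion.2 ⟨as, F, ?_, β, rfl⟩⟩⟩
    convert hF using 1
    rw [List.map_map]
    exact List.attach_map_subtype_val _
  have h3 : iter F β ∈ ⋃ n, R n := Set.mem_iUnion.2 ⟨n + 1, h2⟩
  rw [hT] at h3
  exact h3

end Run7.h922.K
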