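import Mathlib

/-!
# Non-monotone induction as a functional of type 3, and Kleene's schemes relative to it
-/

namespace Run7.h922.K

/-- Cantor space, identified with the power set of `ℕ` and ordered pointwise. -/
abbrev Cantor : Type := ℕ → Bool

/-- The transfinite iteration `f_β` of `F`: `f_0` is constantly `0`, `f_{β+1} = max f_β F(f_β)`,
and suprema are taken at limits. -/
noncomputable def iter (F : Cantor → Cantor) (β : Ordinal.{0}) : Cantor :=
  Ordinal.limitRecOn β (fun _ => false) (fun _ f => f ⊔ F f)
    (fun β _ f => ⨆ γ : Set.Iio β, f γ.1 γ.2)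

/-- The least ordinal `β` with `f_β = f_{β+1}`. -/
noncomputable def closureOrd (F : Cantor → Cantor) : Ordinal.{0} :=
  sInf {β | iter F β = iter F (β + 1)}

/-- The functional of non-monotone induction. -/
noncomputable def Ind (F : Cantor → Cantor) : Cantor := iter F (closureOrd F)

/-- One application of Kleene's schemes S1-S9, with the functional `Ind` as the argument of
type 3. `X e fs as c` stands for: the computation with index `e`, function arguments `fs` (points
of Cantor space) and number arguments `as` has value `c`. `Step X` is the set of all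
computations all of whose immediate subcomputations belong to `X`. -/
inductive Step (X : ℕ → List Cantor → List ℕ → ℕ → Prop) :
    ℕ → List Cantor → List ℕ → ℕ → Prop
  | s1 (fs : List Cantor) (a : ℕ) (as : List ℕ) : Step X (Nat.pair 1 0) fs (a :: as) (a + 1)
  | s2 (q : ℕ) (fs : List Cantor) (as : List ℕ) : Step X (Nat.pair 2 q) fs as q
  | s3 (fs : List Cantor) (a : ℕ) (as : List ℕ) : Step X (Nat.pair 3 0) fs (a :: as) a
  | s4 (d e : ℕ) (fs : List Cantor) (as : List ℕ) (b c : ℕ) :
      X e fs as b → X d fs (b :: as) c → Step X (Nat.pair 4 (Nat.pair d e)) fs as c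
  | s5zero (d e : ℕ) (fs : List Cantor) (as : List ℕ) (c : ℕ) :
      X e fs as c → Step X (Nat.pair 5 (Nat.pair d e)) fs (0 :: as) c
  | s5succ (d e n : ℕ) (fs : List Cantor) (as : List ℕ) (b c : ℕ) :
      X (Nat.pair 5 (Nat.pair d e)) fs (n :: as) b → X d fs (n :: b :: as) c →
      Step X (Nat.pair 5 (Nat.pair d e)) fs ((n + 1) :: as) c
  | s6num (d : ℕ) (fs : List Cantor) (as : List ℕ) (a : ℕ) (as' : List ℕ) (c : ℕ) :
      X d fs (a :: (as ++ as')) c →
      Step X (Nat.pair 6 (Nat.pair (Nat.pair 0 as.length) d)) fs (as ++ a :: as') c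
  | s6fun (d : ℕ) (fs : List Cantor) (f : Cantor) (fs' : List Cantor) (as : List ℕ) (c : ℕ) :
      X d (f :: (fs ++ fs')) as c →
      Step X (Nat.pair 6 (Nat.pair (Nat.pair 1 fs.length) d)) (fs ++ f :: fs') as c
  | s7 (f : Cantor) (fs : List Cantor) (a : ℕ) (as : List ℕ) :
      Step X (Nat.pair 7 0) (f :: fs) (a :: as) (f a).toNat
  | s8 (d n : ℕ) (fs : List Cantor) (as : List ℕ) (F : Cantor → Cantor) :
      (∀ g m, ∃ b, X d (g :: fs) (m :: as) b ∧ F g m = decide (b ≠ 0)) →
      Step X (Nat.pair 8 d) fs (n :: as) (Ind F n).toNat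
  | s9 (d : ℕ) (fs fs' : List Cantor) (as as' : List ℕ) (c : ℕ) :
      X d fs as c →
      Step X (Nat.pair 9 (Nat.pair as.length fs.length)) (fs ++ fs') (d :: (as ++ as')) c

/-- The stages of the inductive definition of the relation `{e}(I, fs, as) = c`: a computation is
in stage `α` if each of its immediate subcomputations is in some stage `β < α`. -/
def stage (α : Ordinal.{0}) : ℕ → List Cantor → List ℕ → ℕ → Prop :=
  Step fun e fs as c => ∃ β, ∃ _ : β < α, stage β e fs as c
termination_by α

/-- `{e}(I, fs, as) = c`: the least fixed point of the inductive definition. -/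
def Computes (e : ℕ) (fs : List Cantor) (as : List ℕ) (c : ℕ) : Prop :=
  ∃ α, stage α e fs as c

/-- `α` is the length of a terminating computation `{e}(I, as)` with integer inputs: the
computation enters the inductive definition exactly at stage `α`. -/
def IsLength (α : Ordinal.{0}) : Prop :=
  ∃ (e : ℕ) (as : List ℕ) (c : ℕ), stage α e [] as c ∧ ∀ β < α, ¬ stage β e [] as c

open Classical in
/-- `α` is computable in `I`: some well-ordering of a subset of `ℕ` of order type `α` has a
characteristic function computable in `I`. -/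
def ComputableOrdinal (α : Ordinal.{0}) : Prop :=
  ∃ (D : Set ℕ) (r : D → D → Prop) (_ : IsWellOrder D r), Ordinal.type r = α ∧
    ∃ e : ℕ, ∀ n m : ℕ, Computes e [] [n, m]
      (if ∃ (hn : n ∈ D) (hm : m ∈ D), r ⟨n, hn⟩ ⟨m, hm⟩ ∨ n = m then 1 else 0)

end Run7.h922.K
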