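import Pool.Agent.Run7.h922.K.Final

/-!
# Every ordinal computable in non-monotone induction is the length of a computation
-/

namespace Run7.h922.K

open Encodable Ordinal

/-- `α` is the length of a computation with at least one number argument. -/
def LN (α : Ordinal.{0}) : Prop :=
  ∃ (e a : ℕ) (as : List ℕ) (c : ℕ), stage α e [] (a :: as) c ∧
    ∀ β < α, ¬ stage β e [] (a :: as) c

theorem LN.succ {α : Ordinal.{0}} (h : LN α) : LN (α + 1) := by
  obtain ⟨e, a, as, c, h1, h2⟩ := h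
  refine ⟨Nat.pair 6 (Nat.pair (Nat.pair 0 0) e), a, as, c, ?_, ?_⟩
  · exact st6num (as := []) (as' := as) (a := a) h1 (by simp)
  · intro β hβ h3
    obtain ⟨γ, hγ, h4⟩ := inv6num (as₁ := []) (a := a) (as₂ := as) rfl h3
    have h5 : γ < α := lt_of_lt_of_le hγ (Order.lt_add_one_iff.1 hβ)
    exact h2 γ h5 h4

theorem LN.add_nat {α : Ordinal.{0}} (h : LN α) (n : ℕ) : LN (α + n) := by
  induction n with
  | zero => simpa using h
  | succ n IH =>
    have := IH.succ
    rwa [add_assoc, ← Nat.cast_succ] at this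

/-- Indices of computations of length `ω * k`. -/
def w : ℕ → ℕ
  | 0 => Nat.pair 2 0
  | k + 1 => Nat.pair 8 (Nat.pair 5 (Nat.pair p0 (w k)))

theorem w_spec (k : ℕ) : ∀ (fs : List Cantor) (as : List ℕ), k ≤ as.length →
    (∃ c, stage (ω * (k : Ordinal.{0})) (w k) fs as c) ∧
    ∀ β c, stage β (w k) fs as c → ω * (k : Ordinal.{0}) ≤ β := by
  induction k with
  | zero =>
    intro fs as _
    refine ⟨⟨0, st2⟩, fun β c _ => ?_⟩
    simp
  | succ k IH =>
    intro fs as has
    obtain ⟨n, as', rfl⟩ : ∃ n as', as = n :: as' := by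
      cases as with
      | nil => simp at has
      | cons n as' => exact ⟨n, as', rfl⟩
    have has' : k ≤ as'.length := by simpa using has
    have hb : ∀ (g : Cantor) (m : ℕ),
        (∃ c, stage (ω * (k : Ordinal.{0}) + ((m + 1 : ℕ) : Ordinal.{0}))
          (Nat.pair 5 (Nat.pair p0 (w k))) (g :: fs) (m :: as') c) ∧
        ∀ β c, stage β (Nat.pair 5 (Nat.pair p0 (w k))) (g :: fs) (m :: as') c →
          ω * (k : Ordinal.{0}) + ((m + 1 : ℕ) : Ordinal.{0}) ≤ β := by
      intro g m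
      induction m with
      | zero =>
        obtain ⟨⟨c, h1⟩, h2⟩ := IH (g :: fs) as' has'
        refine ⟨⟨c, st5zero h1 ?_⟩, ?_⟩
        · simp
        · intro β c' h3
          rw [stage_def] at h3
          rcases h3.inv5 with ⟨as'', h4, γ, hγ, h5⟩ | ⟨n', as'', b, h4, -, -⟩
          · obtain ⟨-, rfl⟩ := List.cons.inj h4
            have := h2 γ c' h5
            simpa using Order.add_one_le_of_lt (lt_of_le_of_lt this hγ)
          · exact absurd (List.cons.inj h4).1 (by omega)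
      | succ m IHm =>
        obtain ⟨⟨c, h1⟩, h2⟩ := IHm
        have h3 : ω * (k : Ordinal.{0}) + ((m + 1 : ℕ) : Ordinal.{0}) <
            ω * (k : Ordinal.{0}) + ((m + 1 + 1 : ℕ) : Ordinal.{0}) := by
          apply (add_lt_add_iff_left _).2
          exact_mod_cast Nat.lt_succ_self _
        refine ⟨⟨m, st5succ h1 st3 h3 h3⟩, ?_⟩
        intro β c' h4
        rw [stage_def] at h4
        rcases h4.inv5 with ⟨as'', h5, -⟩ | ⟨n', as'', b, h5, ⟨γ, hγ, h6⟩, -⟩
        · exact absurd (List.cons.inj h5).1 (by omega)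
        · obtain ⟨h7, rfl⟩ := List.cons.inj h5
          obtain rfl : m = n' := by omega
          have h8 := Order.add_one_le_of_lt (lt_of_le_of_lt (h2 γ b h6) hγ)
          have h9 : ω * (k : Ordinal.{0}) + ((m + 1 : ℕ) : Ordinal.{0}) + 1 =
              ω * (k : Ordinal.{0}) + ((m + 1 + 1 : ℕ) : Ordinal.{0}) := by
            rw [Nat.cast_succ (m + 1), add_assoc]
          rwa [h9] at h8
    have hω : ω * ((k + 1 : ℕ) : Ordinal.{0}) = ω * (k : Ordinal.{0}) + ω := by
      rw [Nat.cast_succ, mul_add, mul_one]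
    constructor
    · choose F hF using fun g m => (hb g m).1
      refine ⟨_, st8 (fun g m => decide (F g m ≠ 0)) fun g m =>
        ⟨F g m, _, ?_, hF g m, rfl⟩⟩
      rw [hω]
      apply (add_lt_add_iff_left _).2
      exact natCast_lt_omega0 _
    · intro β c h
      rw [hω]
      have h1 : ∀ m : ℕ, ω * (k : Ordinal.{0}) + (m : Ordinal.{0}) ≤ β := by
        intro m
        obtain ⟨b, γ, hγ, h2⟩ := inv8 h (fun _ => false) m
        have h3 := (hb (fun _ => false) m).2 γ b h2
        refine le_trans ?_ (h3.trans hγ.le)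
        gcongr
        exact_mod_cast Nat.le_succ m
      rw [add_le_iff_of_isSuccLimit isSuccLimit_omega0]
      intro x hx
      obtain ⟨m, rfl⟩ := lt_omega0.1 hx
      exact h1 m

theorem LN.omega_mul (k : ℕ) : LN (ω * (k : Ordinal.{0})) := by
  obtain ⟨⟨c, h1⟩, h2⟩ := w_spec k [] (0 :: List.replicate k 0) (by simp)
  exact ⟨w k, 0, List.replicate k 0, c, h1, fun β hβ h => absurd (h2 β c h) (not_le.2 hβ)⟩

theorem isLength_of_computable {α : Ordinal.{0}} (h : ComputableOrdinal α) : IsLength α := by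
  classical
  obtain ⟨D, r, hr, rfl, e₀, h₀⟩ := h
  suffices h : LN (type r) by
    obtain ⟨e, a, as, c, h1, h2⟩ := h
    exact ⟨e, a :: as, c, h1, h2⟩
  set μ := type r / ω with hμ
  obtain ⟨n, hn⟩ := lt_omega0.1 (mod_lt (type r) omega0_ne_zero)
  have hdiv : type r = ω * μ + (n : Ordinal.{0}) := by
    rw [← hn, hμ]; exact (div_add_mod _ _).symm
  suffices h : LN (ω * μ) by
    rw [hdiv]; exact h.add_nat n
  rcases lt_or_ge μ ω with hlt | hge
  · obtain ⟨k, hk⟩ := lt_omega0.1 hlt
    rw [hk]; exact LN.omega_mul k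
  · have htot : ∀ n m, Computes e₀ [] [n, m] 0 ∨ Computes e₀ [] [n, m] 1 := by
      intro n m
      have := h₀ n m
      by_cases h : ∃ (hn : n ∈ D) (hm : m ∈ D), r ⟨n, hn⟩ ⟨m, hm⟩ ∨ n = m
      · rw [if_pos h] at this; exact Or.inr this
      · rw [if_neg h] at this; exact Or.inl this
    obtain ⟨g₀, hg₀⟩ := exists_valid htot
    have hpos : (0 : Ordinal.{0}) < ω * μ := mul_pos omega0_pos (lt_of_lt_of_le omega0_pos hge)
    have hle : ω * μ ≤ type r := by rw [hdiv]; exact le_self_add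
    rcases eq_or_lt_of_le hle with heq | hlt'
    · obtain ⟨e, c, h1, h2⟩ := main_limit r h₀ hge (P := fun fs _ => Valid e₀ (G fs))
        (sh_valid e₀) (fun g m hg => ⟨hg, by rw [heq]; exact pos_lt_type r (hpos.trans_le hle)⟩)
        ⟨g₀, fun x hx => by
          rw [heq] at hx
          obtain ⟨m, -, -, hm⟩ := exists_of_lt_type r hx
          exact ⟨m, hg₀, hm⟩⟩
      exact ⟨e, 0, [], c, h1, h2⟩
    · obtain ⟨m₀, hm₀, -, hm₀'⟩ := exists_of_lt_type r hlt'
      have hsh : Sh 1 (fun fs (m : ℕ) => Valid e₀ (G fs) ∧ LtCert e₀ (G fs) m m₀) :=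
        (sh_valid e₀).and ((sh_ltCert e₀).comp (f := fun m : ℕ => (m, m₀)) (by fun_prop))
      obtain ⟨e, c, h1, h2⟩ := main_limit r h₀ hge hsh
        (fun g m hg => ⟨hg.1, by
          rw [← hm₀']
          exact pos_lt r ((ltCert_iff r hg.1 h₀ m m₀).1 hg.2)⟩)
        ⟨g₀, fun x hx => by
          rw [← hm₀'] at hx
          obtain ⟨k, hk, hk'⟩ := exists_of_lt_pos r hx
          exact ⟨k, ⟨hg₀, (ltCert_iff r hg₀ h₀ k m₀).2 hk⟩, hk'⟩⟩
      exact ⟨e, 0, [], c, h1, h2⟩

end Run7.h922.K
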