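import Pool.Agent.Run7.h922.K.Real

/-!
# Computations of prescribed length
-/

namespace Run7.h922.K

open Encodable Ordinal

section inversion

variable {α : Ordinal.{0}} {fs : List Cantor} {as : List ℕ} {c d e k l : ℕ}

theorem inv4 (h : stage α (Nat.pair 4 (Nat.pair d e)) fs as c) :
    ∃ b β γ, β < α ∧ γ < α ∧ stage β e fs as b ∧ stage γ d fs (b :: as) c := by
  rw [stage_def] at h
  obtain ⟨b, ⟨β, hβ, h1⟩, ⟨γ, hγ, h2⟩⟩ := h.inv4
  exact ⟨b, β, γ, hβ, hγ, h1, h2⟩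

theorem inv6num {a : ℕ} {as₁ as₂ : List ℕ} (hk : as₁.length = k)
    (h : stage α (Nat.pair 6 (Nat.pair (Nat.pair 0 k) d)) fs (as₁ ++ a :: as₂) c) :
    ∃ β, β < α ∧ stage β d fs (a :: (as₁ ++ as₂)) c := by
  rw [stage_def] at h
  obtain ⟨as₁', a', as₂', h1, h2, ⟨β, hβ, h3⟩⟩ := h.inv6num
  obtain ⟨rfl, h5⟩ := List.append_inj h2 (by omega)
  obtain ⟨rfl, rfl⟩ := List.cons.inj h5
  exact ⟨β, hβ, h3⟩

theorem inv6fun {f : Cantor} {fs₁ fs₂ : List Cantor} (hk : fs₁.length = k)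
    (h : stage α (Nat.pair 6 (Nat.pair (Nat.pair 1 k) d)) (fs₁ ++ f :: fs₂) as c) :
    ∃ β, β < α ∧ stage β d (f :: (fs₁ ++ fs₂)) as c := by
  rw [stage_def] at h
  obtain ⟨as₁', a', as₂', h1, h2, ⟨β, hβ, h3⟩⟩ := h.inv6fun
  obtain ⟨rfl, h5⟩ := List.append_inj h2 (by omega)
  obtain ⟨rfl, rfl⟩ := List.cons.inj h5
  exact ⟨β, hβ, h3⟩

theorem inv8 {n : ℕ} (h : stage α (Nat.pair 8 d) fs (n :: as) c) (g : Cantor) (m : ℕ) :
    ∃ b β, β < α ∧ stage β d (g :: fs) (m :: as) b := by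
  rw [stage_def] at h
  obtain ⟨n', as', F, h1, h2, h3⟩ := h.inv8
  obtain ⟨rfl, rfl⟩ := List.cons.inj h1
  obtain ⟨b, ⟨β, hβ, h4⟩, -⟩ := h3 g m
  exact ⟨b, β, hβ, h4⟩

theorem inv9 {as₁ as₂ : List ℕ} {fs₁ fs₂ : List Cantor} (hk : as₁.length = k)
    (hl : fs₁.length = l)
    (h : stage α (Nat.pair 9 (Nat.pair k l)) (fs₁ ++ fs₂) (d :: (as₁ ++ as₂)) c) :
    ∃ β, β < α ∧ stage β d fs₁ as₁ c := by
  rw [stage_def] at h
  obtain ⟨d', fs₁', fs₂', as₁', as₂', h2, h3, h4, h5, ⟨β, hβ, h6⟩⟩ := h.inv9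
  obtain ⟨rfl, h7⟩ := List.cons.inj h5
  obtain ⟨rfl, -⟩ := List.append_inj h7 (by omega)
  obtain ⟨rfl, -⟩ := List.append_inj h4 (by omega)
  exact ⟨β, hβ, h6⟩

end inversion

/-- Index for the second number argument. -/
def p1 : ℕ := Nat.pair 6 (Nat.pair (Nat.pair 0 1) (Nat.pair 3 0))

theorem st_p1 {fs : List Cantor} {a b : ℕ} {as : List ℕ} {α : Ordinal.{0}} (hα : 0 < α) :
    stage α p1 fs (a :: b :: as) b :=
  st6num (as := [a]) (as' := as) (a := b) (β := 0) st3 hα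

/-- Index for the first number argument. -/
def p0 : ℕ := Nat.pair 3 0

/-- Calls `{i}([k, x]; [g])` from the arguments `i, k, x, ...` and `h, g, ...`. -/
def call : ℕ := Nat.pair 6 (Nat.pair (Nat.pair 1 1) (Nat.pair 9 (Nat.pair 2 1)))

theorem st_call {i k x c : ℕ} {as : List ℕ} {h g : Cantor} {fs : List Cantor} {α : Ordinal.{0}}
    (h1 : stage α i [g] [k, x] c) : stage (α + 2) call (h :: g :: fs) (i :: k :: x :: as) c := by
  have h2 := st9 (α := α + 1) (fs := [g]) (fs' := h :: fs) (as := [k, x]) (as' := as) h1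
    (by simp)
  have h3 : α + 1 < α + 2 := by
    have : (2 : Ordinal.{0}) = 1 + 1 := by norm_num
    rw [this, ← add_assoc]; simp
  exact st6fun (α := α + 2) (fs := [h]) (fs' := fs) (f := g) h2 h3

theorem inv_call {i k x c : ℕ} {as : List ℕ} {h g : Cantor} {fs : List Cantor} {α : Ordinal.{0}}
    (h1 : stage α call (h :: g :: fs) (i :: k :: x :: as) c) : ∃ β < α, stage β i [g] [k, x] c := by
  obtain ⟨β, hβ, h2⟩ := inv6fun (fs₁ := [h]) (f := g) (fs₂ := fs) rfl h1
  obtain ⟨γ, hγ, h3⟩ := inv9 (fs₁ := [g]) (fs₂ := h :: fs) (as₁ := [k, x]) (as₂ := as) rfl rfl h2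
  exact ⟨γ, hγ.trans hβ, h3⟩

/-- The index `i` if the predicate holds, and the index of the constant `0` otherwise. -/
noncomputable def sel (P : Prop) (i : ℕ) : ℕ :=
  (B P).toNat * i + (1 - (B P).toNat) * Nat.pair 2 0

theorem sel_pos {P : Prop} (h : P) (i : ℕ) : sel P i = i := by
  simp [sel, B_iff.2 h]

theorem sel_neg {P : Prop} (h : ¬ P) (i : ℕ) : sel P i = Nat.pair 2 0 := by
  simp [sel, eq_false_of_ne_true (B_iff.not.2 h)]

theorem primrec_sel : Primrec₂ (fun b i : ℕ => b * i + (1 - b) * Nat.pair 2 0) :=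
  Primrec.nat_add.comp₂ Primrec.nat_mul (Primrec.nat_mul.comp₂
    (Primrec.nat_sub.comp₂ (Primrec₂.const 1) Primrec₂.left) (Primrec₂.const _))

open Classical in
theorem sh_sel {r : ℕ} {P : List Cantor → ℕ → Prop} (hP : Sh r P) (i : ℕ) :
    Val r 1 (fun fs as => sel (P fs (as.getD 0 0)) i) := by
  obtain ⟨v, hv, hP⟩ := hP
  refine (Val.fn2 primrec_sel hv (Val.const r 1 i)).congr fun fs as hfs has => ?_
  match as, has with
  | [a], _ =>
    have h1 := hP fs hfs a
    have h2 : v fs [a] = if P fs a then 1 else 0 := h1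
    simp only [h2, List.getD_cons_zero]
    by_cases h : P fs a
    · rw [sel_pos h, if_pos h]; simp
    · rw [sel_neg h, if_neg h]; simp

open Classical in
theorem sh_sel' {P : List Cantor → ℕ × ℕ → Prop} (hP : Sh 1 P) :
    Val 2 3 (fun fs as => sel (P fs.tail (as.getD 0 0, as.getD 2 0)) (as.getD 1 0)) := by
  obtain ⟨v, hv, hP⟩ := hP
  have h1 : Val 2 3 (fun fs as => v fs.tail [Nat.pair (as.getD 0 0) (as.getD 2 0)]) :=
    Val.comp [fun _ as => Nat.pair (as.getD 0 0) (as.getD 2 0)] hv.weaken (by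
      simpa using Val.fn2 Primrec₂.natPair (Val.proj 2 (i := 0) (s := 3) (by omega))
        (Val.proj 2 (i := 2) (s := 3) (by omega)))
  refine (Val.fn2 primrec_sel h1 (Val.proj 2 (i := 1) (s := 3) (by omega))).congr
    fun fs as hfs has => ?_
  match as, has with
  | [k, x, m], _ =>
    have h2 := hP fs.tail (by simp [hfs]) (k, m)
    have h3 : v fs.tail [Nat.pair k m] = if P fs.tail (k, m) then 1 else 0 := by
      rw [← h2]; rfl
    simp only [List.getD_cons_zero, List.getD_cons_succ, h3]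
    by_cases h : P fs.tail (k, m)
    · rw [sel_pos h, if_pos h]; simp
    · rw [sel_neg h, if_neg h]; simp

section main

variable {D : Set ℕ} (r : D → D → Prop) [IsWellOrder D r]

/-- The strict order on `ℕ`. -/
def SL (k m : ℕ) : Prop := ∃ (hk : k ∈ D) (hm : m ∈ D), r ⟨k, hk⟩ ⟨m, hm⟩

open Classical in
/-- The position of `m`. -/
noncomputable def pos (m : ℕ) : Ordinal.{0} :=
  if hm : m ∈ D then (typein r).toRelEmbedding ⟨m, hm⟩ else 0

theorem pos_lt {k m : ℕ} (h : SL r k m) : pos r k < pos r m := by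
  obtain ⟨hk, hm, h⟩ := h
  rw [pos, pos, dif_pos hk, dif_pos hm]
  exact (typein_lt_typein r).2 h

theorem exists_of_lt_pos {m : ℕ} {x : Ordinal.{0}} (h : x < pos r m) :
    ∃ k, SL r k m ∧ pos r k = x := by
  by_cases hm : m ∈ D
  · rw [pos, dif_pos hm] at h
    obtain ⟨⟨k, hk⟩, hx⟩ := typein_surj r (h.trans (typein_lt_type r _))
    refine ⟨k, ⟨hk, hm, ?_⟩, ?_⟩
    · rw [← typein_lt_typein r, hx]; exact h
    · rw [pos, dif_pos hk, hx]
  · rw [pos, dif_neg hm] at h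
    exact absurd h not_lt_zero

theorem exists_of_lt_type {x : Ordinal.{0}} (h : x < type r) :
    ∃ m, ∃ hm : m ∈ D, (typein r).toRelEmbedding ⟨m, hm⟩ = x ∧ pos r m = x := by
  obtain ⟨⟨k, hk⟩, hx⟩ := typein_surj r h
  exact ⟨k, hk, hx, by rw [pos, dif_pos hk, hx]⟩

theorem pos_lt_type {m : ℕ} (h : 0 < type r) : pos r m < type r := by
  by_cases hm : m ∈ D
  · rw [pos, dif_pos hm]; exact typein_lt_type r _
  · rw [pos, dif_neg hm]; exact h

/-- The order read off from a certificate. -/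
def LtCert (e₀ : ℕ) (g : Cantor) (k m : ℕ) : Prop :=
  k ≠ m ∧ g (Nat.pair 1 (encode ((e₀, [], [k, m], 1) : Claim))) = true

theorem sh_ltCert (e₀ : ℕ) : Sh 1 (fun fs (y : ℕ × ℕ) => LtCert e₀ (G fs) y.1 y.2) := by
  unfold LtCert
  exact (Sh.ne (by fun_prop) (by fun_prop)).and
    (sh_X (f := fun y : ℕ × ℕ => ((e₀, [], [y.1, y.2], 1) : Claim)) (by fun_prop))

open Classical in
theorem ltCert_iff {e₀ : ℕ} {g : Cantor} (hg : Valid e₀ g)
    (h₀ : ∀ n m : ℕ, Computes e₀ [] [n, m]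
      (if ∃ (hn : n ∈ D) (hm : m ∈ D), r ⟨n, hn⟩ ⟨m, hm⟩ ∨ n = m then 1 else 0)) (k m : ℕ) :
    LtCert e₀ g k m ↔ SL r k m := by
  unfold LtCert SL
  rw [valid_spec hg (h₀ k m)]
  constructor
  · rintro ⟨hne, hk, hm, h | h⟩
    · exact ⟨hk, hm, h⟩
    · exact absurd h hne
  · rintro ⟨hk, hm, h⟩
    refine ⟨?_, hk, hm, Or.inl h⟩
    rintro rfl
    exact irrefl_of r _ h

theorem bound_lt {μ : Ordinal.{0}} (hμ : ω ≤ μ) (K : ℕ) {x : Ordinal.{0}} (hx : x < ω * μ) :
    ω + ((K : Ordinal.{0}) + 6 * (x + 1)) < ω * μ := by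
  have h0 : ω ≤ ω * μ := by
    calc (ω : Ordinal.{0}) = ω * 1 := (mul_one _).symm
      _ ≤ ω * μ := by
        gcongr
        exact one_lt_omega0.le.trans hμ
  have h1 : x + 1 < ω * μ := by
    have : Order.IsSuccPrelimit (ω * μ) := isSuccPrelimit_iff_omega0_dvd.2 (Dvd.intro _ rfl)
    exact this.add_one_lt hx
  have h2 : (6 : Ordinal.{0}) * (ω * μ) = ω * μ := by
    rw [← mul_assoc]
    have : ((6 : ℕ) : Ordinal.{0}) * ω = ω := natCast_mul_omega0 (by norm_num)
    rw [show (6 : Ordinal.{0}) = ((6 : ℕ) : Ordinal.{0}) by norm_num, this]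
  have h3 : (6 : Ordinal.{0}) * (x + 1) < ω * μ := by
    rw [← h2]
    exact mul_lt_mul_of_pos_left h1 (by norm_num)
  have h4 : (K : Ordinal.{0}) + 6 * (x + 1) < ω * μ := by
    rw [← natCast_add_of_omega0_le h0 K]
    exact (add_lt_add_iff_left _).2 h3
  have h5 : ω + ω * μ = ω * μ := by
    conv_lhs => rw [← mul_one ω, mul_assoc, one_mul, ← mul_add]
    rw [one_add_of_omega0_le hμ]
  rw [← h5]
  exact (add_lt_add_iff_left _).2 h4

open Classical in
/-- The main construction. -/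
theorem main_limit {e₀ : ℕ}
    (h₀ : ∀ n m : ℕ, Computes e₀ [] [n, m]
      (if ∃ (hn : n ∈ D) (hm : m ∈ D), r ⟨n, hn⟩ ⟨m, hm⟩ ∨ n = m then 1 else 0))
    {μ : Ordinal.{0}} (hμ : ω ≤ μ) {P : List Cantor → ℕ → Prop} (hP : Sh 1 P)
    (h1 : ∀ g m, P [g] m → Valid e₀ g ∧ pos r m < ω * μ)
    (h2 : ∃ g, ∀ x < ω * μ, ∃ m, P [g] m ∧ pos r m = x) :
    ∃ (e c : ℕ), stage (ω * μ) e [] [0] c ∧ ∀ β < ω * μ, ¬ stage β e [] [0] c := by
  obtain ⟨ei, Ki, hei⟩ := sh_sel' (sh_ltCert e₀)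
  -- the recursion along the order
  set d : ℕ := Nat.pair 4 (Nat.pair call ei) with hd
  set eR : ℕ := Nat.pair 4 (Nat.pair (Nat.pair 4 (Nat.pair (Nat.pair 8 d) (Nat.pair 2 0))) p1)
    with heR
  have hsel : ∀ (h g : Cantor) (k x m y : ℕ), stage (ω + (Ki : Ordinal.{0})) ei [h, g]
      [k, x, m, y] (sel (LtCert e₀ g k m) x) := by
    intro h g k x m y
    have := hei [h, g] [] [k, x, m] [y] rfl rfl
    exact this
  -- upper bounds
  set bd : ℕ → Ordinal.{0} := fun m => ω + (((Ki + 3 : ℕ) : Ordinal.{0}) + 6 * (pos r m + 1))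
    with hbd
  have hbd6 : ∀ m, bd m = ω + (((Ki + 3 : ℕ) : Ordinal.{0}) + 6 * pos r m) + 6 := by
    intro m
    rw [hbd]; simp only
    rw [mul_add, mul_one, add_assoc, add_assoc]
  have nat_lt : ∀ (x : Ordinal.{0}) (a b : ℕ), a < b → x + (a : Ordinal.{0}) < x + (b : ℕ) := by
    intro x a b hab
    apply (add_lt_add_iff_left x).2
    exact_mod_cast hab
  have upper : ∀ g, Valid e₀ g → ∀ m, stage (bd m) eR [g] [m, eR] 0 := by
    intro g hg m
    induction hx : pos r m using WellFoundedLT.induction generalizing m with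
    | _ x IH =>
    subst hx
    set γ : Ordinal.{0} := ω + (((Ki + 3 : ℕ) : Ordinal.{0}) + 6 * pos r m) with hγ
    have hsub : ∀ (h : Cantor) (k : ℕ), stage (γ + (3 : ℕ)) d [h, g] [k, eR, m, eR] 0 := by
      intro h k
      by_cases hk : LtCert e₀ g k m
      · have hk' : SL r k m := (ltCert_iff r hg h₀ k m).1 hk
        have h3 := IH (pos r k) (pos_lt r hk') k rfl
        have h4 : bd k ≤ γ := by
          show ω + (((Ki + 3 : ℕ) : Ordinal.{0}) + 6 * (pos r k + 1)) ≤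
            ω + (((Ki + 3 : ℕ) : Ordinal.{0}) + 6 * pos r m)
          gcongr
          exact Order.add_one_le_of_lt (pos_lt r hk')
        have h5 := st_call (as := [m, eR]) (h := h) (fs := []) h3
        have h6 := hsel h g k eR m eR
        rw [sel_pos hk] at h6
        refine st4 h6 h5 ?_ ?_
        · have h7 : ω + (Ki : Ordinal.{0}) ≤ γ := by
            rw [hγ]
            gcongr
            refine le_trans ?_ (le_self_add)
            exact_mod_cast Nat.le_add_right _ _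
          refine lt_of_le_of_lt h7 ?_
          have := nat_lt γ 0 3 (by norm_num)
          simpa using this
        · have h8 : bd k + 2 ≤ γ + 2 := by gcongr
          refine lt_of_le_of_lt h8 ?_
          have := nat_lt γ 2 3 (by norm_num)
          simpa using this
      · have h6 := hsel h g k eR m eR
        rw [sel_neg hk] at h6
        have h5 := st_call (α := 0) (as := [m, eR]) (h := h) (fs := []) (k := k) (x := eR) (g := g)
          (i := Nat.pair 2 0) (c := 0) st2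
        refine st4 h6 h5 ?_ ?_
        · have h7 : ω + (Ki : Ordinal.{0}) ≤ γ := by
            rw [hγ]
            gcongr
            refine le_trans ?_ (le_self_add)
            exact_mod_cast Nat.le_add_right _ _
          refine lt_of_le_of_lt h7 ?_
          have := nat_lt γ 0 3 (by norm_num)
          simpa using this
        · have h8 : (0 + 2 : Ordinal.{0}) ≤ γ := by
            rw [hγ]
            refine le_trans ?_ le_self_add
            rw [zero_add]
            exact_mod_cast (natCast_lt_omega0 2).le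
          refine lt_of_le_of_lt h8 ?_
          have := nat_lt γ 0 3 (by norm_num)
          simpa using this
    have h8 : stage (γ + (4 : ℕ)) (Nat.pair 8 d) [g] [0, eR, m, eR] 0 := by
      have h9 := st8 (α := γ + (4 : ℕ)) (d := d) (fs := [g]) (n := 0) (as := [eR, m, eR])
        (fun _ _ => false) (fun h k => ⟨0, _, nat_lt γ 3 4 (by norm_num), hsub h k, by simp⟩)
      rwa [ind_const_false] at h9
    have h9 : stage (γ + (5 : ℕ)) (Nat.pair 4 (Nat.pair (Nat.pair 8 d) (Nat.pair 2 0))) [g]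
        [eR, m, eR] 0 :=
      st4 (β := γ + (4 : ℕ)) st2 h8 (nat_lt γ 4 5 (by norm_num)) (nat_lt γ 4 5 (by norm_num))
    have h10 : bd m = γ + (6 : ℕ) := by
      rw [show ((6 : ℕ) : Ordinal.{0}) = 6 by norm_num]
      exact hbd6 m
    rw [h10]
    refine st4 (β := γ + (5 : ℕ)) (st_p1 ?_) h9 (nat_lt γ 5 6 (by norm_num))
      (nat_lt γ 5 6 (by norm_num))
    exact lt_of_lt_of_le (by norm_num) (le_add_self (a := ((5 : ℕ) : Ordinal.{0})) (b := γ))
  -- lower bounds
  have lower : ∀ g, Valid e₀ g → ∀ (m : ℕ) (α : Ordinal.{0}) (c : ℕ),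
      stage α eR [g] [m, eR] c → pos r m ≤ α := by
    intro g hg m
    induction hx : pos r m using WellFoundedLT.induction generalizing m with
    | _ x IH =>
    subst hx
    intro α c h
    by_contra hcon
    push Not at hcon
    obtain ⟨k, hk, hk'⟩ := exists_of_lt_pos r hcon
    obtain ⟨b, β, γ, -, hγ, h3, h4⟩ := inv4 h
    have hb : b = eR := stage_unique h3 (st_p1 (α := 1) (by norm_num))
    rw [hb] at h4
    obtain ⟨b', β', γ', -, hγ', h5, h6⟩ := inv4 h4
    have hb' : b' = 0 := stage_unique h5 (st2 (α := 0))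
    rw [hb'] at h6
    obtain ⟨b'', β'', hβ'', h7⟩ := inv8 h6 (fun _ => false) k
    obtain ⟨i, β₁, γ₁, -, hγ₁, h8, h9⟩ := inv4 h7
    have hi : i = eR := by
      have h10 := stage_unique h8 (hsel _ g k eR m eR)
      rwa [sel_pos ((ltCert_iff r hg h₀ k m).2 hk)] at h10
    rw [hi] at h9
    obtain ⟨β₂, hβ₂, h11⟩ := inv_call h9
    have h12 := IH (pos r k) (pos_lt r hk) k rfl β₂ _ h11
    have h13 : pos r k < α := lt_of_le_of_lt h12
      (hβ₂.trans (hγ₁.trans (hβ''.trans (hγ'.trans hγ))))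
    rw [hk'] at h13
    exact lt_irrefl _ h13
  -- the outer program
  obtain ⟨ev, Kv, hev⟩ := sh_sel hP eR
  have hsel' : ∀ (g : Cantor) (m x y : ℕ), stage (ω + (Kv : Ordinal.{0})) ev [g]
      [m, x, y] (sel (P [g] m) eR) := by
    intro g m x y
    exact hev [g] [] [m] [x, y] rfl rfl
  set q2 : ℕ := Nat.pair 4 (Nat.pair (Nat.pair 9 (Nat.pair 2 1)) ev) with hq2
  set q1 : ℕ := Nat.pair 4 (Nat.pair q2 p1) with hq1
  set q : ℕ := Nat.pair 4 (Nat.pair q1 (Nat.pair 2 eR)) with hq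
  have hlim : ∀ x < ω * μ, x + 1 < ω * μ := by
    have : Order.IsSuccPrelimit (ω * μ) := isSuccPrelimit_iff_omega0_dvd.2 (Dvd.intro _ rfl)
    exact fun x hx => this.add_one_lt hx
  have hK : ∀ K : ℕ, ω + (K : Ordinal.{0}) < ω * μ := by
    intro K
    have h3 : (0 : Ordinal.{0}) < ω * μ := by
      have : (0 : Ordinal.{0}) < μ := lt_of_lt_of_le omega0_pos hμ
      exact mul_pos omega0_pos this
    have h4 := bound_lt hμ K h3
    refine lt_of_le_of_lt ?_ h4
    gcongr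
    exact le_self_add
  have hupq : ∀ (g : Cantor) (m : ℕ), ∃ β < ω * μ, stage β q [g] [m] 0 := by
    intro g m
    -- the call
    have h3 : ∃ β < ω * μ, stage β (Nat.pair 9 (Nat.pair 2 1)) [g]
        [sel (P [g] m) eR, m, eR, m] 0 := by
      by_cases hPm : P [g] m
      · rw [sel_pos hPm]
        obtain ⟨h4, h5⟩ := h1 g m hPm
        have h6 := upper g h4 m
        have h7 : bd m < ω * μ := bound_lt hμ _ h5
        refine ⟨bd m + 1, hlim _ h7, ?_⟩
        exact st9 (fs := [g]) (fs' := []) (as := [m, eR]) (as' := [m]) h6 (by simp)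
      · rw [sel_neg hPm]
        refine ⟨1, ?_, ?_⟩
        · refine lt_of_le_of_lt ?_ (hK 0)
          rw [Nat.cast_zero, add_zero]
          exact one_lt_omega0.le
        · exact st9 (fs := [g]) (fs' := []) (as := [m, eR]) (as' := [m]) (st2 (α := 0)) (by simp)
    obtain ⟨β, hβ, h3⟩ := h3
    have h4 : ∃ β < ω * μ, stage β q2 [g] [m, eR, m] 0 := by
      refine ⟨max (ω + (Kv : Ordinal.{0})) β + 1, hlim _ (max_lt (hK Kv) hβ), ?_⟩
      exact st4 (hsel' g m eR m) h3 (Order.lt_add_one_iff.2 (le_max_left _ _))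
        (Order.lt_add_one_iff.2 (le_max_right _ _))
    obtain ⟨β₂, hβ₂, h4⟩ := h4
    have h5 : ∃ β < ω * μ, stage β q1 [g] [eR, m] 0 := by
      refine ⟨max 1 β₂ + 1, hlim _ (max_lt ?_ hβ₂), ?_⟩
      · refine lt_of_le_of_lt ?_ (hK 0)
        rw [Nat.cast_zero, add_zero]
        exact one_lt_omega0.le
      · exact st4 (st_p1 (α := 1) (by norm_num)) h4 (Order.lt_add_one_iff.2 (le_max_left _ _))
          (Order.lt_add_one_iff.2 (le_max_right _ _))
    obtain ⟨β₃, hβ₃, h5⟩ := h5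
    refine ⟨β₃ + 1, hlim _ hβ₃, ?_⟩
    exact st4 (β := 0) st2 h5 (lt_of_le_of_lt (zero_le (a := β₃)) (Order.lt_add_one_iff.2 le_rfl))
      (Order.lt_add_one_iff.2 le_rfl)
  refine ⟨Nat.pair 8 q, 0, ?_, ?_⟩
  · have h3 := st8 (α := ω * μ) (d := q) (fs := []) (n := 0) (as := [])
      (fun _ _ => false) (fun g m => by
        obtain ⟨β, hβ, h4⟩ := hupq g m
        exact ⟨0, β, hβ, h4, by simp⟩)
    rwa [ind_const_false] at h3
  · intro α hα h
    obtain ⟨g, hg⟩ := h2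
    obtain ⟨m, hm, hm'⟩ := hg α hα
    obtain ⟨b, β, hβ, h3⟩ := inv8 h g m
    obtain ⟨b₁, β₁, γ₁, -, hγ₁, h4, h5⟩ := inv4 h3
    have hb₁ : b₁ = eR := stage_unique h4 (st2 (α := 0))
    rw [hb₁] at h5
    obtain ⟨b₂, β₂, γ₂, -, hγ₂, h6, h7⟩ := inv4 h5
    have hb₂ : b₂ = m := stage_unique h6 (st_p1 (α := 1) (by norm_num))
    rw [hb₂] at h7
    obtain ⟨i, β₃, γ₃, -, hγ₃, h8, h9⟩ := inv4 h7
    have hi : i = eR := by
      have h10 := stage_unique h8 (hsel' g m eR m)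
      rwa [sel_pos hm] at h10
    rw [hi] at h9
    obtain ⟨β₄, hβ₄, h11⟩ := inv9 (fs₁ := [g]) (fs₂ := []) (as₁ := [m, eR]) (as₂ := [m])
      rfl rfl h9
    have h12 := lower g (h1 g m hm).1 m β₄ _ h11
    rw [hm'] at h12
    exact absurd (lt_of_le_of_lt h12 (hβ₄.trans (hγ₃.trans (hγ₂.trans (hγ₁.trans hβ)))))
      (lt_irrefl _)

end main

end Run7.h922.K
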