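import Pool.Agent.Run7.h922.K.Basic

/-!
# Inversion of the schemes
-/

namespace Run7.h922.K

variable {X : ℕ → List Cantor → List ℕ → ℕ → Prop} {fs : List Cantor} {as : List ℕ} {c : ℕ}

theorem Step.inv1 (h : Step X (Nat.pair 1 0) fs as c) : ∃ a as', as = a :: as' ∧ c = a + 1 := by
  generalize hE : Nat.pair 1 0 = E at h
  cases h <;> simp [Nat.pair_eq_pair] at hE
  exact ⟨_, _, rfl, rfl⟩

theorem Step.inv2 {q : ℕ} (h : Step X (Nat.pair 2 q) fs as c) : c = q := by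
  generalize hE : Nat.pair 2 q = E at h
  cases h <;> simp [Nat.pair_eq_pair] at hE
  exact hE.symm

theorem Step.inv3 (h : Step X (Nat.pair 3 0) fs as c) : ∃ as', as = c :: as' := by
  generalize hE : Nat.pair 3 0 = E at h
  cases h <;> simp [Nat.pair_eq_pair] at hE
  exact ⟨_, rfl⟩

theorem Step.inv4 {d e : ℕ} (h : Step X (Nat.pair 4 (Nat.pair d e)) fs as c) :
    ∃ b, X e fs as b ∧ X d fs (b :: as) c := by
  generalize hE : Nat.pair 4 (Nat.pair d e) = E at h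
  cases h <;> simp [Nat.pair_eq_pair] at hE
  obtain ⟨rfl, rfl⟩ := hE
  exact ⟨_, ‹_›, ‹_›⟩

theorem Step.inv5 {d e : ℕ} (h : Step X (Nat.pair 5 (Nat.pair d e)) fs as c) :
    (∃ as', as = 0 :: as' ∧ X e fs as' c) ∨ ∃ n as' b, as = (n + 1) :: as' ∧
      X (Nat.pair 5 (Nat.pair d e)) fs (n :: as') b ∧ X d fs (n :: b :: as') c := by
  generalize hE : Nat.pair 5 (Nat.pair d e) = E at h
  cases h <;> simp [Nat.pair_eq_pair] at hE
  · obtain ⟨rfl, rfl⟩ := hE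
    exact Or.inl ⟨_, rfl, ‹_›⟩
  · obtain ⟨rfl, rfl⟩ := hE
    exact Or.inr ⟨_, _, _, rfl, ‹_›, ‹_›⟩

theorem Step.inv6num {k d : ℕ} (h : Step X (Nat.pair 6 (Nat.pair (Nat.pair 0 k) d)) fs as c) :
    ∃ as₁ a as₂, as₁.length = k ∧ as = as₁ ++ a :: as₂ ∧ X d fs (a :: (as₁ ++ as₂)) c := by
  generalize hE : Nat.pair 6 (Nat.pair (Nat.pair 0 k) d) = E at h
  cases h <;> simp [Nat.pair_eq_pair] at hE
  obtain ⟨rfl, rfl⟩ := hE
  exact ⟨_, _, _, rfl, rfl, ‹_›⟩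

theorem Step.inv6fun {k d : ℕ} (h : Step X (Nat.pair 6 (Nat.pair (Nat.pair 1 k) d)) fs as c) :
    ∃ fs₁ f fs₂, fs₁.length = k ∧ fs = fs₁ ++ f :: fs₂ ∧ X d (f :: (fs₁ ++ fs₂)) as c := by
  generalize hE : Nat.pair 6 (Nat.pair (Nat.pair 1 k) d) = E at h
  cases h <;> simp [Nat.pair_eq_pair] at hE
  obtain ⟨rfl, rfl⟩ := hE
  exact ⟨_, _, _, rfl, rfl, ‹_›⟩

theorem Step.inv7 (h : Step X (Nat.pair 7 0) fs as c) :
    ∃ f fs' a as', fs = f :: fs' ∧ as = a :: as' ∧ c = (f a).toNat := by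
  generalize hE : Nat.pair 7 0 = E at h
  cases h <;> simp [Nat.pair_eq_pair] at hE
  exact ⟨_, _, _, _, rfl, rfl, rfl⟩

theorem Step.inv8 {d : ℕ} (h : Step X (Nat.pair 8 d) fs as c) :
    ∃ (n : ℕ) (as' : List ℕ) (F : Cantor → Cantor), as = n :: as' ∧ c = (Ind F n).toNat ∧
      ∀ g m, ∃ b, X d (g :: fs) (m :: as') b ∧ F g m = decide (b ≠ 0) := by
  generalize hE : Nat.pair 8 d = E at h
  cases h <;> simp [Nat.pair_eq_pair] at hE
  obtain rfl := hE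
  exact ⟨_, _, _, rfl, rfl, ‹_›⟩

theorem Step.inv9 {k l : ℕ} (h : Step X (Nat.pair 9 (Nat.pair k l)) fs as c) :
    ∃ (d : ℕ) (fs₁ fs₂ : List Cantor) (as₁ as₂ : List ℕ), as₁.length = k ∧ fs₁.length = l ∧
      fs = fs₁ ++ fs₂ ∧ as = d :: (as₁ ++ as₂) ∧ X d fs₁ as₁ c := by
  generalize hE : Nat.pair 9 (Nat.pair k l) = E at h
  cases h <;> simp [Nat.pair_eq_pair] at hE
  obtain ⟨rfl, rfl⟩ := hE
  exact ⟨_, _, _, _, _, rfl, rfl, rfl, rfl, ‹_›⟩

/-- The value of a computation is determined. -/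
theorem stage_unique {α : Ordinal.{0}} : ∀ {e : ℕ} {fs : List Cantor} {as : List ℕ} {c : ℕ},
    stage α e fs as c → ∀ {β : Ordinal.{0}} {c' : ℕ}, stage β e fs as c' → c = c' := by
  induction α using WellFoundedLT.induction with
  | _ α IH =>
  intro e fs as c h β c' h'
  rw [stage_def] at h h'
  cases h with
  | s1 =>
    obtain ⟨a, as', h1, h2⟩ := h'.inv1
    cases h1; exact h2.symm
  | s2 => exact h'.inv2.symm
  | s3 =>
    obtain ⟨as', h1⟩ := h'.inv3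
    cases h1; rfl
  | s4 d e fs as b c h1 h2 =>
    obtain ⟨α₁, hα₁, h1⟩ := h1
    obtain ⟨α₂, hα₂, h2⟩ := h2
    obtain ⟨b', ⟨β₁, -, h3⟩, ⟨β₂, -, h4⟩⟩ := h'.inv4
    obtain rfl := IH α₁ hα₁ h1 h3
    exact IH α₂ hα₂ h2 h4
  | s5zero d e fs as c h1 =>
    obtain ⟨α₁, hα₁, h1⟩ := h1
    rcases h'.inv5 with ⟨as', h2, β₁, -, h3⟩ | ⟨n, as', b, h2, -, -⟩
    · cases h2
      exact IH α₁ hα₁ h1 h3
    · cases h2
  | s5succ d e n fs as b c h1 h2 =>
    obtain ⟨α₁, hα₁, h1⟩ := h1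
    obtain ⟨α₂, hα₂, h2⟩ := h2
    rcases h'.inv5 with ⟨as', h3, β₁, -, -⟩ | ⟨n', as', b', h3, ⟨β₁, -, h4⟩, ⟨β₂, -, h5⟩⟩
    · cases h3
    · cases h3
      obtain rfl := IH α₁ hα₁ h1 h4
      exact IH α₂ hα₂ h2 h5
  | s6num d fs as a as' c h2 =>
    obtain ⟨α₂, hα₂, h2⟩ := h2
    obtain ⟨as₁, a', as₂, h3, h4, ⟨β₂, -, h5⟩⟩ := h'.inv6num
    obtain ⟨rfl, h6⟩ := List.append_inj h4 h3.symm
    obtain ⟨rfl, rfl⟩ := List.cons.inj h6
    exact IH α₂ hα₂ h2 h5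
  | s6fun d fs f fs' as c h2 =>
    obtain ⟨α₂, hα₂, h2⟩ := h2
    obtain ⟨as₁, a', as₂, h3, h4, ⟨β₂, -, h5⟩⟩ := h'.inv6fun
    obtain ⟨rfl, h6⟩ := List.append_inj h4 h3.symm
    obtain ⟨rfl, rfl⟩ := List.cons.inj h6
    exact IH α₂ hα₂ h2 h5
  | s7 =>
    obtain ⟨f, fs', a, as', h1, h2, h3⟩ := h'.inv7
    cases h1; cases h2; exact h3.symm
  | s8 d n fs as F h1 =>
    obtain ⟨n', as', F', h2, h3, h4⟩ := h'.inv8
    cases h2
    have : F = F' := by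
      funext g m
      obtain ⟨b, ⟨α₁, hα₁, h5⟩, h6⟩ := h1 g m
      obtain ⟨b', ⟨β₁, -, h7⟩, h8⟩ := h4 g m
      obtain rfl := IH α₁ hα₁ h5 h7
      rw [h6, h8]
    rw [h3, this]
  | s9 d fs fs' as as' c h1 =>
    obtain ⟨α₁, hα₁, h1⟩ := h1
    obtain ⟨d', fs₁, fs₂, as₁, as₂, h2, h3, h4, h5, ⟨β₁, -, h6⟩⟩ := h'.inv9
    have h7 := List.append_inj h4 h3.symm
    have h8 := (List.cons.inj h5)
    have h9 := List.append_inj h8.2 h2.symm
    obtain ⟨rfl, -⟩ := h7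
    obtain ⟨rfl, -⟩ := h9
    obtain ⟨rfl, -⟩ := h8
    exact IH α₁ hα₁ h1 h6

theorem Computes.unique {e : ℕ} {fs : List Cantor} {as : List ℕ} {c c' : ℕ}
    (h : Computes e fs as c) (h' : Computes e fs as c') : c = c' := by
  obtain ⟨α, h⟩ := h
  obtain ⟨β, h'⟩ := h'
  exact stage_unique h h'

/-- `Computes` is closed under the schemes. -/
theorem computes_of_step {e : ℕ} {fs : List Cantor} {as : List ℕ} {c : ℕ}
    (h : Step Computes e fs as c) : Computes e fs as c := by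
  classical
  -- a bound for the stages of countably many families indexed by `Cantor × ℕ`
  let A : (ℕ × List Cantor × List ℕ × ℕ) → Ordinal.{0} := fun x =>
    if hx : ∃ α, stage α x.1 x.2.1 x.2.2.1 x.2.2.2 then hx.choose + 1 else 0
  refine ⟨iSup A, stage_of_step (h.mono ?_)⟩
  intro e fs as c hc
  have hc' : ∃ α, stage α e fs as c := hc
  refine ⟨hc'.choose, ?_, hc'.choose_spec⟩
  have h1 : A (e, fs, as, c) = hc'.choose + 1 := by
    simp only [A]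
    rw [dif_pos hc']
  have h2 : A (e, fs, as, c) ≤ iSup A := Ordinal.le_iSup A _
  rw [h1] at h2
  exact lt_of_lt_of_le (Order.lt_add_one_iff.2 le_rfl) h2

theorem computes_step {e : ℕ} {fs : List Cantor} {as : List ℕ} {c : ℕ}
    (h : Computes e fs as c) : Step Computes e fs as c := by
  obtain ⟨α, h⟩ := h
  rw [stage_def] at h
  exact h.mono fun e fs as c ⟨β, _, h⟩ => ⟨β, h⟩

/-- `Computes` is the least relation closed under the schemes. -/
theorem computes_least {X : ℕ → List Cantor → List ℕ → ℕ → Prop}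
    (hX : ∀ e fs as c, Step X e fs as c → X e fs as c) {e : ℕ} {fs : List Cantor} {as : List ℕ}
    {c : ℕ} (h : Computes e fs as c) : X e fs as c := by
  obtain ⟨α, h⟩ := h
  induction α using WellFoundedLT.induction generalizing e fs as c with
  | _ α IH =>
    rw [stage_def] at h
    exact hX _ _ _ _ (h.mono fun e fs as c ⟨β, hβ, h⟩ => IH β hβ h)

end Run7.h922.K
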