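import Pool.Agent.Run7.h922.K.Inv

/-!
# Primitive recursive functions have computations of finite length
-/

namespace Run7.h922.K

open Encodable

section constructors

variable {α β γ : Ordinal.{0}} {fs : List Cantor} {as : List ℕ} {a b c d e n k : ℕ}

theorem st1 : stage α (Nat.pair 1 0) fs (a :: as) (a + 1) := stage_of_step (Step.s1 _ _ _)

theorem st2 : stage α (Nat.pair 2 n) fs as n := stage_of_step (Step.s2 _ _ _)

theorem st3 : stage α (Nat.pair 3 0) fs (a :: as) a := stage_of_step (Step.s3 _ _ _)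

theorem st4 (h1 : stage β e fs as b) (h2 : stage γ d fs (b :: as) c) (hβ : β < α) (hγ : γ < α) :
    stage α (Nat.pair 4 (Nat.pair d e)) fs as c :=
  stage_of_step (Step.s4 _ _ _ _ b _ ⟨β, hβ, h1⟩ ⟨γ, hγ, h2⟩)

theorem st5zero (h1 : stage β e fs as c) (hβ : β < α) :
    stage α (Nat.pair 5 (Nat.pair d e)) fs (0 :: as) c :=
  stage_of_step (Step.s5zero _ _ _ _ _ ⟨β, hβ, h1⟩)

theorem st5succ (h1 : stage β (Nat.pair 5 (Nat.pair d e)) fs (n :: as) b)
    (h2 : stage γ d fs (n :: b :: as) c) (hβ : β < α) (hγ : γ < α) :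
    stage α (Nat.pair 5 (Nat.pair d e)) fs ((n + 1) :: as) c :=
  stage_of_step (Step.s5succ _ _ _ _ _ b _ ⟨β, hβ, h1⟩ ⟨γ, hγ, h2⟩)

theorem st6num {as as' : List ℕ} (h1 : stage β d fs (a :: (as ++ as')) c) (hβ : β < α) :
    stage α (Nat.pair 6 (Nat.pair (Nat.pair 0 as.length) d)) fs (as ++ a :: as') c :=
  stage_of_step (Step.s6num _ _ _ _ _ _ ⟨β, hβ, h1⟩)

theorem st6fun {f : Cantor} {fs fs' : List Cantor} (h1 : stage β d (f :: (fs ++ fs')) as c)
    (hβ : β < α) :
    stage α (Nat.pair 6 (Nat.pair (Nat.pair 1 fs.length) d)) (fs ++ f :: fs') as c :=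
  stage_of_step (Step.s6fun _ _ _ _ _ _ ⟨β, hβ, h1⟩)

theorem st7 {f : Cantor} : stage α (Nat.pair 7 0) (f :: fs) (a :: as) (f a).toNat :=
  stage_of_step (Step.s7 _ _ _ _)

theorem st8 (F : Cantor → Cantor)
    (h : ∀ g m, ∃ b β, β < α ∧ stage β d (g :: fs) (m :: as) b ∧ F g m = decide (b ≠ 0)) :
    stage α (Nat.pair 8 d) fs (n :: as) (Ind F n).toNat := by
  refine stage_of_step (Step.s8 _ _ _ _ F fun g m => ?_)
  obtain ⟨b, β, hβ, h1, h2⟩ := h g m
  exact ⟨b, ⟨β, hβ, h1⟩, h2⟩

theorem st9 {fs fs' : List Cantor} {as as' : List ℕ} (h1 : stage β d fs as c) (hβ : β < α) :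
    stage α (Nat.pair 9 (Nat.pair as.length fs.length)) (fs ++ fs') (d :: (as ++ as')) c :=
  stage_of_step (Step.s9 _ _ _ _ _ _ ⟨β, hβ, h1⟩)

end constructors

/-- Index that brings `n` number arguments standing behind `j` others to the front. -/
def mv : ℕ → ℕ → ℕ → ℕ
  | 0, _, e => e
  | n + 1, j, e => Nat.pair 6 (Nat.pair (Nat.pair 0 (j + n)) (mv n (j + 1) e))

/-- Index that brings `n` function arguments standing behind `j` others to the front. -/
def mvf : ℕ → ℕ → ℕ → ℕ
  | 0, _, e => e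
  | n + 1, j, e => Nat.pair 6 (Nat.pair (Nat.pair 1 (j + n)) (mvf n (j + 1) e))

theorem mv_spec {α : Ordinal.{0}} {fs : List Cantor} {c : ℕ} : ∀ (n j e : ℕ) (xs v ras : List ℕ),
    xs.length = j → v.length = n → stage α e fs (v ++ (xs ++ ras)) c →
    stage (α + n) (mv n j e) fs (xs ++ (v ++ ras)) c := by
  intro n
  induction n with
  | zero =>
    intro j e xs v ras hxs hv h
    have : v = [] := List.eq_nil_of_length_eq_zero hv
    subst this
    simpa [mv] using h
  | succ n IH =>
    intro j e xs v ras hxs hv h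
    obtain ⟨v', a, rfl⟩ : ∃ v' a, v = v' ++ [a] := by
      rcases List.eq_nil_or_concat v with h0 | ⟨v', a, h0⟩
      · subst h0; simp at hv
      · exact ⟨v', a, by simpa using h0⟩
    have hv' : v'.length = n := by simpa using hv
    have h1 := IH (j + 1) e (a :: xs) v' ras (by simp [hxs]) hv' (by simpa using h)
    have h4 : (α + (n : ℕ) : Ordinal.{0}) < α + ((n + 1 : ℕ) : Ordinal.{0}) := by
      apply (add_lt_add_iff_left α).2
      exact_mod_cast Nat.lt_succ_self n
    have h5 : (xs ++ v').length = j + n := by simp [hxs, hv']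
    have h6 := st6num (as := xs ++ v') (as' := ras) (a := a) (by simpa using h1) h4
    rw [h5] at h6
    simpa [mv] using h6

theorem mvf_spec {α : Ordinal.{0}} {as : List ℕ} {c : ℕ} :
    ∀ (n j e : ℕ) (xs v ras : List Cantor),
    xs.length = j → v.length = n → stage α e (v ++ (xs ++ ras)) as c →
    stage (α + n) (mvf n j e) (xs ++ (v ++ ras)) as c := by
  intro n
  induction n with
  | zero =>
    intro j e xs v ras hxs hv h
    have : v = [] := List.eq_nil_of_length_eq_zero hv
    subst this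
    simpa [mvf] using h
  | succ n IH =>
    intro j e xs v ras hxs hv h
    obtain ⟨v', a, rfl⟩ : ∃ v' a, v = v' ++ [a] := by
      rcases List.eq_nil_or_concat v with h0 | ⟨v', a, h0⟩
      · subst h0; simp at hv
      · exact ⟨v', a, by simpa using h0⟩
    have hv' : v'.length = n := by simpa using hv
    have h1 := IH (j + 1) e (a :: xs) v' ras (by simp [hxs]) hv' (by simpa using h)
    have h4 : (α + (n : ℕ) : Ordinal.{0}) < α + ((n + 1 : ℕ) : Ordinal.{0}) := by
      apply (add_lt_add_iff_left α).2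
      exact_mod_cast Nat.lt_succ_self n
    have h5 : (xs ++ v').length = j + n := by simp [hxs, hv']
    have h6 := st6fun (fs := xs ++ v') (fs' := ras) (f := a) (by simpa using h1) h4
    rw [h5] at h6
    simpa [mvf] using h6

/-- Finite length. -/
def FS (e : ℕ) (fs : List Cantor) (as : List ℕ) (c : ℕ) : Prop :=
  ∃ k : ℕ, stage (k : Ordinal.{0}) e fs as c

theorem FS.st4 {e d b c : ℕ} {fs : List Cantor} {as : List ℕ} (h1 : FS e fs as b)
    (h2 : FS d fs (b :: as) c) : FS (Nat.pair 4 (Nat.pair d e)) fs as c := by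
  obtain ⟨k1, h1⟩ := h1
  obtain ⟨k2, h2⟩ := h2
  refine ⟨max k1 k2 + 1, K.st4 h1 h2 ?_ ?_⟩
  · exact_mod_cast Nat.lt_succ_of_le (le_max_left k1 k2)
  · exact_mod_cast Nat.lt_succ_of_le (le_max_right k1 k2)

theorem FS.mv {e c : ℕ} {fs : List Cantor} {xs v ras : List ℕ} (h : FS e fs (v ++ (xs ++ ras)) c) :
    FS (mv v.length xs.length e) fs (xs ++ (v ++ ras)) c := by
  obtain ⟨k, h⟩ := h
  refine ⟨k + v.length, ?_⟩
  have := mv_spec v.length xs.length e xs v ras rfl rfl h
  rwa [Nat.cast_add]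

theorem rep_comp {m : ℕ} : ∀ (l : List ((List ℕ → ℕ) × ℕ)),
    (∀ x ∈ l, ∀ v : List ℕ, v.length = m → ∀ ras fs, FS x.2 fs (v ++ ras) (x.1 v)) →
    ∀ (H : List ℕ → ℕ) (eh : ℕ), (∀ v : List ℕ, v.length = m → ∀ ras fs,
      FS eh fs (l.map (fun x => x.1 v) ++ (v ++ ras)) (H v)) →
    ∃ e, ∀ v : List ℕ, v.length = m → ∀ ras fs, FS e fs (v ++ ras) (H v) := by
  intro l
  induction l with
  | nil => intro _ H eh h; exact ⟨eh, fun v hv ras fs => by simpa using h v hv ras fs⟩
  | cons x l IH =>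
    intro hl H eh h
    apply IH (fun y hy => hl y (List.mem_cons_of_mem _ hy)) H
      (Nat.pair 4 (Nat.pair eh (mv m l.length x.2)))
    intro v hv ras fs
    refine FS.st4 (b := x.1 v) ?_ ?_
    · have h1 := hl x List.mem_cons_self v hv (l.map (fun x => x.1 v) ++ ras) fs
      have h2 := FS.mv h1
      rw [hv, List.length_map] at h2
      exact h2
    · have := h v hv ras fs
      simpa using this

theorem primrec'_rep {n : ℕ} {f : List.Vector ℕ n → ℕ} (hf : Nat.Primrec' f) :
    ∃ e, ∀ (v : List.Vector ℕ n) (ras : List ℕ) (fs : List Cantor),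
      FS e fs (v.toList ++ ras) (f v) := by
  induction hf with
  | zero => exact ⟨Nat.pair 2 0, fun v ras fs => ⟨0, st2⟩⟩
  | succ =>
    refine ⟨Nat.pair 1 0, fun v ras fs => ⟨0, ?_⟩⟩
    obtain ⟨a, w, rfl⟩ := v.exists_eq_cons
    simp only [List.Vector.toList_cons, List.cons_append, List.Vector.head_cons]
    exact st1
  | @get n i =>
    refine ⟨Nat.pair 6 (Nat.pair (Nat.pair 0 i) (Nat.pair 3 0)), fun v ras fs => ⟨1, ?_⟩⟩
    have h1 : v.toList = v.toList.take i ++ v.get i :: v.toList.drop (i + 1) := by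
      rw [List.Vector.get_eq_get_toList]
      simp
    have h2 : (v.toList.take i).length = i := by simp
    have h3 := st6num (α := 1) (β := 0) (fs := fs) (as := v.toList.take i)
      (as' := v.toList.drop (i + 1) ++ ras) (a := v.get i) st3 (by simp)
    rw [h2] at h3
    rw [h1, List.append_assoc, List.cons_append]
    exact_mod_cast h3
  | @comp m n f g hf hg IHf IHg =>
    obtain ⟨ef, hef⟩ := IHf
    choose eg heg using IHg
    -- functions on lists
    let G : Fin n → (List ℕ → ℕ) := fun i v => if h : v.length = m then g i ⟨v, h⟩ else 0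
    have := rep_comp (m := m) (List.ofFn fun i => (G i, eg i)) (by
      intro x hx v hv ras fs
      rw [List.mem_ofFn'] at hx
      obtain ⟨i, rfl⟩ := hx
      have h1 := heg i ⟨v, hv⟩ ras fs
      simp only [G, dif_pos hv]
      exact h1) (fun v => if h : v.length = m then
        f (List.Vector.ofFn fun i => g i ⟨v, h⟩) else 0) ef (by
      intro v hv ras fs
      have h1 := hef (List.Vector.ofFn fun i => g i ⟨v, hv⟩) (v ++ ras) fs
      rw [List.Vector.toList_ofFn] at h1
      rw [dif_pos hv, List.map_ofFn]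
      convert h1 using 3
      funext i
      simp [G, hv])
    obtain ⟨e, he⟩ := this
    refine ⟨e, fun v ras fs => ?_⟩
    have h1 := he v.toList (by simp) ras fs
    rw [dif_pos (by simp)] at h1
    convert h1 using 4
    exact Subtype.ext rfl
  | @prec n f g hf hg IHf IHg =>
    obtain ⟨ef, hef⟩ := IHf
    obtain ⟨eg, heg⟩ := IHg
    refine ⟨Nat.pair 5 (Nat.pair eg ef), fun v ras fs => ?_⟩
    obtain ⟨a, w, rfl⟩ := v.exists_eq_cons
    simp only [List.Vector.toList_cons, List.cons_append, List.Vector.head_cons,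
      List.Vector.tail_cons]
    induction a with
    | zero =>
      obtain ⟨k, hk⟩ := hef w ras fs
      exact ⟨k + 1, st5zero hk (by exact_mod_cast Nat.lt_succ_self k)⟩
    | succ a IH =>
      obtain ⟨k, hk⟩ := IH
      obtain ⟨k', hk'⟩ := heg (a ::ᵥ (Nat.rec (f w) (fun y IH => g (y ::ᵥ IH ::ᵥ w)) a) ::ᵥ w)
        ras fs
      simp only [List.Vector.toList_cons, List.cons_append] at hk'
      refine ⟨max k k' + 1, st5succ hk hk' ?_ ?_⟩
      · exact_mod_cast Nat.lt_succ_of_le (le_max_left k k')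
      · exact_mod_cast Nat.lt_succ_of_le (le_max_right k k')

end Run7.h922.K
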