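import Mathlib

/-!
# Automation for primitive recursive functions
-/

namespace Run7.h922.K

open Encodable

attribute [fun_prop] Primrec

variable {α β γ : Type} [Primcodable α] [Primcodable β] [Primcodable γ]

@[fun_prop] theorem pr_id : Primrec (fun x : α => x) := Primrec.id

@[fun_prop] theorem pr_const (b : β) : Primrec (fun _ : α => b) := Primrec.const b

@[fun_prop] theorem pr_comp {f : β → γ} {g : α → β} (hf : Primrec f) (hg : Primrec g) :
    Primrec (fun x => f (g x)) := hf.comp hg

@[fun_prop] theorem pr_pair {f : α → β} {g : α → γ} (hf : Primrec f) (hg : Primrec g) :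
    Primrec (fun x => (f x, g x)) := hf.pair hg

@[fun_prop] theorem pr_fst {f : α → β × γ} (hf : Primrec f) :
    Primrec (fun x => (f x).1) := Primrec.fst.comp hf

@[fun_prop] theorem pr_snd {f : α → β × γ} (hf : Primrec f) :
    Primrec (fun x => (f x).2) := Primrec.snd.comp hf

@[fun_prop] theorem pr_encode {f : α → β} (hf : Primrec f) :
    Primrec (fun x => encode (f x)) := Primrec.encode.comp hf

@[fun_prop] theorem pr_natPair {f g : α → ℕ} (hf : Primrec f) (hg : Primrec g) :
    Primrec (fun x => Nat.pair (f x) (g x)) := Primrec₂.natPair.comp hf hg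

@[fun_prop] theorem pr_add {f g : α → ℕ} (hf : Primrec f) (hg : Primrec g) :
    Primrec (fun x => f x + g x) := Primrec.nat_add.comp hf hg

@[fun_prop] theorem pr_cons {f : α → β} {g : α → List β} (hf : Primrec f) (hg : Primrec g) :
    Primrec (fun x => f x :: g x) := Primrec.list_cons.comp hf hg

@[fun_prop] theorem pr_append {f : α → List β} {g : α → List β} (hf : Primrec f)
    (hg : Primrec g) : Primrec (fun x => f x ++ g x) := Primrec.list_append.comp hf hg

@[fun_prop] theorem pr_length {f : α → List β} (hf : Primrec f) :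
    Primrec (fun x => (f x).length) := Primrec.list_length.comp hf

example : Primrec (fun x : ℕ × List ℕ => x.1 + x.2.length) := by fun_prop
example : Primrec (fun x : ℕ × List ℕ × List ℕ => Nat.pair 6 (Nat.pair x.1 (x.2.1 ++ x.1 :: x.2.2).length)) := by fun_prop
example : Primrec (fun x : (ℕ × List ℕ × List ℕ × ℕ) × ℕ  => Nat.pair 6 (encode (x.1.1, x.2, x.1.2.1))) := by fun_prop

end Run7.h922.K
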