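import Pool.Agent.Run7.h922.K.Short

/-!
# Existence and correctness of valid certificates
-/

namespace Run7.h922.K

open Encodable

open Classical in
/-- The certificate made from a table. -/
noncomputable def mk (T : ℕ → Cantor) : Cantor := fun z =>
  if z.unpair.1 = 0 then T z.unpair.2.unpair.1 z.unpair.2.unpair.2
  else if z.unpair.1 = 1 then B (∃ x : Claim, z.unpair.2 = encode x ∧ True' T x)
  else if z.unpair.1 = 2 then B (∃ y x : Claim, z.unpair.2 = Nat.pair (encode y) (encode x) ∧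
    True' T y ∧ True' T x ∧ rk T y < rk T x)
  else B (∃ w : Key × ℕ, z.unpair.2 = encode w ∧ SS T w)

theorem Tg_mk (T : ℕ → Cantor) : Tg (mk T) = T := by
  funext j k
  simp [Tg, mk]

theorem Xg_mk (T : ℕ → Cantor) (x : Claim) : Xg (mk T) x ↔ True' T x := by
  simp only [Xg, mk, Nat.unpair_pair]
  rw [if_neg (by decide), if_pos trivial, B_iff]
  constructor
  · rintro ⟨y, hy, h⟩
    rwa [← encode_injective hy] at h
  · intro h; exact ⟨x, rfl, h⟩

theorem Lg_mk (T : ℕ → Cantor) (n m : ℕ) : Lg (mk T) n m ↔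
    ∃ y x : Claim, n = encode y ∧ m = encode x ∧ True' T y ∧ True' T x ∧ rk T y < rk T x := by
  simp only [Lg, mk, Nat.unpair_pair]
  rw [if_neg (by decide), if_neg (by decide), if_pos trivial, B_iff]
  constructor
  · rintro ⟨y, x, h, h'⟩
    rw [Nat.pair_eq_pair] at h
    exact ⟨y, x, h.1, h.2, h'⟩
  · rintro ⟨y, x, rfl, rfl, h⟩
    exact ⟨y, x, rfl, h⟩

theorem Sg_mk (T : ℕ → Cantor) (w : Key × ℕ) : Sg (mk T) w ↔ SS T w := by
  simp only [Sg, mk, Nat.unpair_pair]
  rw [if_neg (by decide), if_neg (by decide), if_neg (by decide), B_iff]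
  constructor
  · rintro ⟨y, hy, h⟩
    rwa [← encode_injective hy] at h
  · intro h; exact ⟨w, rfl, h⟩

theorem exists_valid {e₀ : ℕ} (h₀ : ∀ n m, Computes e₀ [] [n, m] 0 ∨ Computes e₀ [] [n, m] 1) :
    ∃ g, Valid e₀ g := by
  obtain ⟨T, hT⟩ := exists_closedTable
  refine ⟨mk T, ?_, ?_, ?_⟩
  · let f : ℕ → Ordinal.{0} := fun n => ((decode (α := Claim) n).map (rk T)).getD 0
    refine Subrelation.wf (r := InvImage (· < ·) f) ?_ (InvImage.wf _ wellFounded_lt)
    intro n m h
    rw [Lg_mk] at h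
    obtain ⟨y, x, rfl, rfl, -, -, h⟩ := h
    show f (encode y) < f (encode x)
    simp only [f, encodek, Option.map_some, Option.getD_some]
    exact h
  · intro x hx
    rw [Xg_mk] at hx
    have h1 := just_complete (e := x.1) (rs := x.2.1) (as := x.2.2.1) (c := x.2.2.2) hT hx
    have h2 : Sg (mk T) = SS T := by
      funext w; exact propext (Sg_mk T w)
    have h3 : Ug (mk T) x = (fun y => True' T y ∧ rk T y < rk T (x.1, x.2.1, x.2.2.1, x.2.2.2)) := by
      funext y
      apply propext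
      unfold Ug
      rw [Xg_mk, Lg_mk]
      constructor
      · rintro ⟨h4, y', x', h5, h6, -, -, h7⟩
        rw [← encode_injective h5, ← encode_injective h6] at h7
        exact ⟨h4, h7⟩
      · rintro ⟨h4, h5⟩
        exact ⟨h4, y, x, rfl, rfl, h4, hx, h5⟩
    rw [Tg_mk, h2, h3]
    exact h1
  · intro n m
    rw [Xg_mk, Xg_mk]
    exact h₀ n m

theorem valid_spec {e₀ : ℕ} {g : Cantor} (hg : Valid e₀ g) {n m : ℕ} {P : Prop} [Decidable P]
    (h : Computes e₀ [] [n, m] (if P then 1 else 0)) :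
    g (Nat.pair 1 (encode ((e₀, [], [n, m], 1) : Claim))) = true ↔ P := by
  obtain ⟨h1, h2, h3⟩ := hg
  have hs : ∀ x : Claim, Xg g x → Sound (Tg g) x := sound_of_wf h1 h2
  constructor
  · intro hx
    have h4 := hs (e₀, [], [n, m], 1) hx _ h
    by_contra hP
    rw [if_neg hP] at h4
    exact absurd h4 Nat.zero_ne_one
  · intro hP
    rcases h3 n m with hx | hx
    · have h4 := hs (e₀, [], [n, m], 0) hx _ h
      rw [if_pos hP] at h4
      exact absurd h4 Nat.one_ne_zero
    · exact hx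

end Run7.h922.K
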