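import Pool.Agent.Run7.h922.K.Cert
import Pool.Agent.Run7.h922.K.Prim

/-!
# Validity of a certificate is decided by short computations
-/

namespace Run7.h922.K

open Encodable

section

variable {α β : Type} [Primcodable α] [Primcodable β] {r : ℕ}

theorem Sh.exT [Inhabited β] {p : List Cantor → α → β → Prop}
    (hp : Sh r (fun fs (y : α × β) => p fs y.1 y.2)) : Sh r (fun fs a => ∃ b, p fs a b) := by
  have h1 : Primrec (fun y : α × ℕ => (y.1, ((decode (α := β) y.2).getD default))) :=
    Primrec.fst.pair (Primrec.option_getD.comp (Primrec.decode.comp Primrec.snd)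
      (Primrec.const default))
  refine (hp.comp h1).ex.congr fun fs _ a => ?_
  constructor
  · rintro ⟨n, hn⟩; exact ⟨_, hn⟩
  · rintro ⟨b, hb⟩; exact ⟨encode b, by simpa using hb⟩

theorem Sh.allT [Inhabited β] {p : List Cantor → α → β → Prop}
    (hp : Sh r (fun fs (y : α × β) => p fs y.1 y.2)) : Sh r (fun fs a => ∀ b, p fs a b) := by
  refine (Sh.exT (p := fun fs a b => ¬ p fs a b) hp.not).not.congr fun fs _ a => ?_
  push Not; rfl

theorem Sh.wfT {p : List Cantor → α → ℕ → ℕ → Prop}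
    (hp : Sh r (fun fs (y : (α × ℕ) × ℕ) => p fs y.1.1 y.1.2 y.2)) :
    Sh r (fun fs a => WellFounded (p fs a)) := by
  have h1 : Primrec (fun y : (α × ℕ) × ℕ => ((y.1.1, y.2), y.1.2)) := by fun_prop
  exact (hp.comp h1).wf.congr fun fs _ a => Iff.rfl

theorem Sh.eq [DecidableEq β] {f g : α → β} (hf : Primrec f) (hg : Primrec g) :
    Sh r (fun _ a => f a = g a) := Sh.prim (Primrec.eq.comp hf hg)

theorem Sh.ne [DecidableEq β] {f g : α → β} (hf : Primrec f) (hg : Primrec g) :
    Sh r (fun _ a => f a ≠ g a) := (Sh.eq hf hg).not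

end

/-- The certificate. -/
def G (fs : List Cantor) : Cantor := fs.getD 0 (fun _ => false)

/-- The table of functions. -/
def Tg (g : Cantor) : ℕ → Cantor := fun j k => g (Nat.pair 0 (Nat.pair j k))

/-- The claims. -/
def Xg (g : Cantor) (x : Claim) : Prop := g (Nat.pair 1 (encode x)) = true

/-- The relation between codes of claims. -/
def Lg (g : Cantor) (n m : ℕ) : Prop := g (Nat.pair 2 (Nat.pair n m)) = true

/-- The sets of indices. -/
def Sg (g : Cantor) (z : Key × ℕ) : Prop := g (Nat.pair 3 (encode z)) = true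

/-- Claims below `x`. -/
def Ug (g : Cantor) (x y : Claim) : Prop := Xg g y ∧ Lg g (encode y) (encode x)

/-- Valid certificates for the totality of the binary function with index `e₀`. -/
def Valid (e₀ : ℕ) (g : Cantor) : Prop :=
  WellFounded (Lg g) ∧
  (∀ x : Claim, Xg g x → Just (Tg g) (Sg g) (Ug g x) x.1 x.2.1 x.2.2.1 x.2.2.2) ∧
  ∀ n m : ℕ, Xg g (e₀, [], [n, m], 0) ∨ Xg g (e₀, [], [n, m], 1)

section

variable {α : Type} [Primcodable α]

theorem sh_T {j k : α → ℕ} (hj : Primrec j) (hk : Primrec k) :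
    Sh 1 (fun fs a => Tg (G fs) (j a) (k a) = true) :=
  Sh.app Nat.zero_lt_one (f := fun a => Nat.pair 0 (Nat.pair (j a) (k a))) (by fun_prop)

theorem sh_X {f : α → Claim} (hf : Primrec f) : Sh 1 (fun fs a => Xg (G fs) (f a)) :=
  Sh.app Nat.zero_lt_one (f := fun a => Nat.pair 1 (encode (f a))) (by fun_prop)

theorem sh_L {j k : α → ℕ} (hj : Primrec j) (hk : Primrec k) :
    Sh 1 (fun fs a => Lg (G fs) (j a) (k a)) :=
  Sh.app Nat.zero_lt_one (f := fun a => Nat.pair 2 (Nat.pair (j a) (k a))) (by fun_prop)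

theorem sh_S {f : α → Key × ℕ} (hf : Primrec f) : Sh 1 (fun fs a => Sg (G fs) (f a)) :=
  Sh.app Nat.zero_lt_one (f := fun a => Nat.pair 3 (encode (f a))) (by fun_prop)

theorem sh_U {f x : α → Claim} (hf : Primrec f) (hx : Primrec x) :
    Sh 1 (fun fs a => Ug (G fs) (x a) (f a)) :=
  (sh_X hf).and (sh_L (by fun_prop) (by fun_prop))

theorem sh_Lt {i j : α → ℕ} (hi : Primrec i) (hj : Primrec j) :
    Sh 1 (fun fs a => Lt (Tg (G fs)) (i a) (j a)) := by
  unfold Lt
  refine Sh.and (Sh.allT ?_) (Sh.exT ?_)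
  · exact (sh_T (by fun_prop) (by fun_prop)).imp (sh_T (by fun_prop) (by fun_prop))
  · exact (sh_T (by fun_prop) (by fun_prop)).and (sh_T (by fun_prop) (by fun_prop)).not

theorem sh_chain {y : α → Key} {x : α → Claim} {n c : α → ℕ} (hy : Primrec y) (hx : Primrec x)
    (hn : Primrec n) (hc : Primrec c) :
    Sh 1 (fun fs a => Chain (Tg (G fs)) (Sg (G fs)) (Ug (G fs) (x a)) (y a) (n a) (c a)) := by
  unfold Chain
  repeat' first
    | exact sh_T (by fun_prop) (by fun_prop)
    | exact sh_S (by fun_prop)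
    | exact sh_Lt (by fun_prop) (by fun_prop)
    | exact sh_U (by fun_prop) (by fun_prop)
    | exact Sh.eq (by fun_prop) (by fun_prop)
    | exact Sh.ne (by fun_prop) (by fun_prop)
    | refine Sh.and ?_ ?_
    | refine Sh.or ?_ ?_
    | refine Sh.iff ?_ ?_
    | refine Sh.wfT ?_
    | refine Sh.allT ?_
    | refine Sh.exT ?_
    | refine Sh.not ?_
    | refine Sh.imp ?_ ?_

theorem sh_just {x : α → Claim} {e c : α → ℕ} {rs as : α → List ℕ} (hx : Primrec x)
    (he : Primrec e) (hrs : Primrec rs) (has : Primrec as) (hc : Primrec c) :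
    Sh 1 (fun fs a => Just (Tg (G fs)) (Sg (G fs)) (Ug (G fs) (x a)) (e a) (rs a) (as a) (c a)) := by
  unfold Just
  repeat' first
    | exact sh_T (by fun_prop) (by fun_prop)
    | exact sh_U (by fun_prop) (by fun_prop)
    | exact Sh.eq (by fun_prop) (by fun_prop)
    | exact sh_chain (by fun_prop) (by fun_prop) (by fun_prop) (by fun_prop)
    | refine Sh.and ?_ ?_
    | refine Sh.or ?_ ?_
    | refine Sh.exT ?_
    | refine Sh.not ?_

theorem sh_valid (e₀ : ℕ) : Sh 1 (fun fs (_ : α) => Valid e₀ (G fs)) := by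
  unfold Valid
  repeat' first
    | exact sh_L (by fun_prop) (by fun_prop)
    | exact sh_X (by fun_prop)
    | exact sh_just (by fun_prop) (by fun_prop) (by fun_prop) (by fun_prop) (by fun_prop)
    | refine Sh.and ?_ ?_
    | refine Sh.or ?_ ?_
    | refine Sh.wfT ?_
    | refine Sh.allT ?_
    | refine Sh.imp ?_ ?_

end

end Run7.h922.K
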