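import Pool.Agent.Run7.h922.K.PR

/-!
# Functions and predicates with computations of length below `ω + ω`
-/

namespace Run7.h922.K

open Encodable Ordinal

/-- `v fs as` has computations whose lengths are uniformly bounded by some `ω + K`. -/
def Val (r s : ℕ) (v : List Cantor → List ℕ → ℕ) : Prop :=
  ∃ e K : ℕ, ∀ (fs gs : List Cantor) (as ras : List ℕ), fs.length = r → as.length = s →
    stage (ω + (K : Ordinal.{0})) e (fs ++ gs) (as ++ ras) (v fs as)

theorem FS.stage_omega {e c : ℕ} {fs : List Cantor} {as : List ℕ} (h : FS e fs as c) (K : ℕ) :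
    stage (ω + (K : Ordinal.{0})) e fs as c := by
  obtain ⟨k, h⟩ := h
  refine stage_mono ?_ h
  exact (natCast_lt_omega0 k).le.trans (le_self_add)

theorem om_lt {K K' : ℕ} (h : K < K') : (ω + (K : Ordinal.{0})) < ω + (K' : Ordinal.{0}) := by
  apply (add_lt_add_iff_left ω).2
  exact_mod_cast h

theorem om_le {K K' : ℕ} (h : K ≤ K') : (ω + (K : Ordinal.{0})) ≤ ω + (K' : Ordinal.{0}) := by
  apply (add_le_add_iff_left ω).2
  exact_mod_cast h

theorem Val.congr {r s : ℕ} {v v' : List Cantor → List ℕ → ℕ} (h : Val r s v)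
    (hv : ∀ fs as, fs.length = r → as.length = s → v fs as = v' fs as) : Val r s v' := by
  obtain ⟨e, K, h⟩ := h
  refine ⟨e, K, fun fs gs as ras h1 h2 => ?_⟩
  rw [← hv fs as h1 h2]
  exact h fs gs as ras h1 h2

theorem Val.comp_aux {r s : ℕ} : ∀ (l : List (List Cantor → List ℕ → ℕ)),
    (∀ v ∈ l, Val r s v) → ∀ (H : List Cantor → List ℕ → ℕ),
    (∃ e K : ℕ, ∀ (fs gs : List Cantor) (as ras : List ℕ), fs.length = r → as.length = s →
      stage (ω + (K : Ordinal.{0})) e (fs ++ gs) (l.map (fun v => v fs as) ++ (as ++ ras))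
        (H fs as)) → Val r s H := by
  intro l
  induction l with
  | nil =>
    rintro _ H ⟨e, K, h⟩
    exact ⟨e, K, fun fs gs as ras h1 h2 => by simpa using h fs gs as ras h1 h2⟩
  | cons x l IH =>
    rintro hl H ⟨e, K, h⟩
    apply IH (fun y hy => hl y (List.mem_cons_of_mem _ hy)) H
    obtain ⟨e1, K1, hx⟩ := hl x List.mem_cons_self
    refine ⟨Nat.pair 4 (Nat.pair e (mv s l.length e1)), max K (K1 + s) + 1,
      fun fs gs as ras h1 h2 => ?_⟩
    have h3 := hx fs gs as (l.map (fun v => v fs as) ++ ras) h1 h2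
    have h4 := mv_spec s l.length e1 (l.map (fun v => v fs as)) as ras (by simp) h2 h3
    have h5 : (ω + (K1 : Ordinal.{0}) + (s : Ordinal.{0})) = ω + ((K1 + s : ℕ) : Ordinal.{0}) := by
      rw [add_assoc, Nat.cast_add]
    rw [h5] at h4
    have h6 := h fs gs as ras h1 h2
    simp only [List.map_cons, List.cons_append] at h6
    exact st4 h4 h6 (om_lt (by omega)) (om_lt (by omega))

theorem Val.comp {r s : ℕ} {p : List Cantor → List ℕ → ℕ} (l : List (List Cantor → List ℕ → ℕ))
    (hp : Val r l.length p) (hl : ∀ v ∈ l, Val r s v) :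
    Val r s (fun fs as => p fs (l.map (fun v => v fs as))) := by
  refine Val.comp_aux l hl _ ?_
  obtain ⟨e, K, h⟩ := hp
  exact ⟨e, K, fun fs gs as ras h1 h2 => h fs gs _ _ h1 (by simp)⟩

theorem Val.of_primrec' {r n : ℕ} {f : List.Vector ℕ n → ℕ} (hf : Nat.Primrec' f)
    {v : List Cantor → List ℕ → ℕ} (hv : ∀ fs as (h : as.length = n), v fs as = f ⟨as, h⟩) :
    Val r n v := by
  obtain ⟨e, he⟩ := primrec'_rep hf
  refine ⟨e, 0, fun fs gs as ras h1 h2 => ?_⟩
  rw [hv fs as h2]
  exact (he ⟨as, h2⟩ ras (fs ++ gs)).stage_omega 0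

theorem Val.const (r s n : ℕ) : Val r s (fun _ _ => n) :=
  ⟨Nat.pair 2 n, 0, fun _ _ _ _ _ _ => st2⟩

theorem Val.proj (r : ℕ) {s i : ℕ} (hi : i < s) : Val r s (fun _ as => as.getD i 0) := by
  refine Val.of_primrec' (Nat.Primrec'.get ⟨i, hi⟩) fun fs as h => ?_
  subst h
  rw [List.Vector.get_eq_get_toList]
  simp [List.getD_eq_getElem?_getD, hi]

theorem Val.fn1 {r s : ℕ} {v : List Cantor → List ℕ → ℕ} {f : ℕ → ℕ} (hf : Primrec f)
    (hv : Val r s v) : Val r s (fun fs as => f (v fs as)) := by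
  have h1 : Nat.Primrec' (fun w : List.Vector ℕ 1 => f w.head) :=
    Nat.Primrec'.of_prim (hf.comp Primrec.vector_head)
  have h2 : Val r 1 (fun _ as => f (as.headD 0)) := by
    refine Val.of_primrec' h1 fun fs as h => ?_
    match as, h with
    | [a], _ => rfl
  exact (Val.comp [v] h2 (by simpa using hv)).congr fun fs as _ _ => rfl

theorem Val.fn2 {r s : ℕ} {v w : List Cantor → List ℕ → ℕ} {f : ℕ → ℕ → ℕ} (hf : Primrec₂ f)
    (hv : Val r s v) (hw : Val r s w) : Val r s (fun fs as => f (v fs as) (w fs as)) := by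
  have h1 : Nat.Primrec' (fun w : List.Vector ℕ 2 => f w.head w.tail.head) :=
    Nat.Primrec'.of_prim (hf.comp Primrec.vector_head
      (Primrec.vector_head.comp Primrec.vector_tail))
  have h2 : Val r 2 (fun _ as => f (as.headD 0) (as.tail.headD 0)) := by
    refine Val.of_primrec' h1 fun fs as h => ?_
    match as, h with
    | [a, b], _ => rfl
  exact (Val.comp [v, w] h2 (by simpa using ⟨hv, hw⟩)).congr fun fs as _ _ => rfl

theorem Val.app {r s i : ℕ} (hi : i < r) {v : List Cantor → List ℕ → ℕ} (hv : Val r s v) :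
    Val r s (fun fs as => ((fs.getD i (fun _ => false)) (v fs as)).toNat) := by
  have h2 : Val r 1 (fun fs as => ((fs.getD i (fun _ => false)) (as.headD 0)).toNat) := by
    refine ⟨Nat.pair 6 (Nat.pair (Nat.pair 1 i) (Nat.pair 7 0)), 1, fun fs gs as ras h1 h2 => ?_⟩
    match as, h2 with
    | [a], _ =>
      have h3 : fs = fs.take i ++ fs.getD i (fun _ => false) :: fs.drop (i + 1) := by
        rw [List.getD_eq_getElem _ _ (by omega)]
        simp
      have h4 : (fs.take i).length = i := by simp; omega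
      have h5 := st6fun (α := ω + ((1 : ℕ) : Ordinal.{0})) (as := [a] ++ ras) (fs := fs.take i)
        (fs' := fs.drop (i + 1) ++ gs) (f := fs.getD i (fun _ => false)) st7
        (om_lt Nat.zero_lt_one)
      rw [h4] at h5
      have h6 : fs ++ gs = fs.take i ++ fs.getD i (fun _ => false) :: (fs.drop (i + 1) ++ gs) := by
        conv_lhs => rw [h3]
        simp
      rw [h6]
      exact h5
  exact (Val.comp [v] h2 (by simpa using hv)).congr fun fs as _ _ => rfl

theorem Val.weaken {r s : ℕ} {v : List Cantor → List ℕ → ℕ} (hv : Val r s v) :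
    Val (r + 1) s (fun fs as => v fs.tail as) := by
  obtain ⟨e, K, h⟩ := hv
  refine ⟨mvf r 1 e, K + r, fun fs gs as ras h1 h2 => ?_⟩
  match fs, h1 with
  | g :: fs, h1 =>
    have h1' : fs.length = r := by simpa using h1
    have h3 := h fs (g :: gs) as ras h1' h2
    have h4 := mvf_spec r 1 e [g] fs gs rfl h1' (by simpa using h3)
    have h5 : (ω + (K : Ordinal.{0}) + (r : Ordinal.{0})) = ω + ((K + r : ℕ) : Ordinal.{0}) := by
      rw [add_assoc, Nat.cast_add]
    rw [h5] at h4
    simpa using h4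

theorem Val.ind {r s : ℕ} {v w : List Cantor → List ℕ → ℕ} (hv : Val (r + 1) (s + 1) v)
    (hw : Val r s w) : Val r s (fun fs as =>
      (Ind (fun g m => decide (v (g :: fs) (m :: as) ≠ 0)) (w fs as)).toNat) := by
  obtain ⟨e, K, h⟩ := hv
  obtain ⟨e1, K1, h1⟩ := hw
  refine ⟨Nat.pair 4 (Nat.pair (Nat.pair 8 e) e1), max (K + 1) K1 + 1,
    fun fs gs as ras h2 h3 => ?_⟩
  refine st4 (h1 fs gs as ras h2 h3) (γ := ω + ((K + 1 : ℕ) : Ordinal.{0}))
    (st8 (fun g m => decide (v (g :: fs) (m :: as) ≠ 0)) fun g m => ?_)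
    (om_lt (by omega)) (om_lt (by omega))
  exact ⟨v (g :: fs) (m :: as), _, om_lt (Nat.lt_succ_self K),
    h (g :: fs) gs (m :: as) ras (by simp [h2]) (by simp [h3]), rfl⟩

/-! ### Predicates -/

/-- The truth value of a proposition. -/
noncomputable def B (p : Prop) : Bool := @decide p (Classical.propDecidable p)

theorem B_iff {p : Prop} : B p = true ↔ p := by
  unfold B; exact @decide_eq_true_iff p (Classical.propDecidable p)

theorem B_le {p q : Prop} (h : p → q) : B p ≤ B q := by
  by_cases hp : p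
  · have h1 : B q = true := B_iff.2 (h hp)
    rw [h1]; exact Bool.le_true _
  · have h1 : B p = false := by
      rw [← Bool.not_eq_true, B_iff]; exact hp
    rw [h1]; exact Bool.false_le _

theorem le_B {b : Bool} {q : Prop} (h : b = true → q) : b ≤ B q := by
  cases b
  · exact Bool.false_le _
  · rw [B_iff.2 (h rfl)]

theorem of_le_B {b : Bool} {q : Prop} (h : b ≤ B q) (hb : b = true) : q := by
  rw [hb] at h
  exact B_iff.1 (h rfl)

theorem of_B_le {b : Bool} {q : Prop} (h : B q ≤ b) (hq : q) : b = true := by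
  rw [B_iff.2 hq] at h
  exact h rfl

theorem B_congr {p q : Prop} (h : p ↔ q) : B p = B q := by rw [propext h]

section Sh

open Classical

variable {α β : Type} [Primcodable α] [Primcodable β] {r : ℕ}

/-- The characteristic function of `p` has computations of length below `ω + ω`, uniformly. -/
def Sh (r : ℕ) (p : List Cantor → α → Prop) : Prop :=
  ∃ v, Val r 1 v ∧ ∀ fs : List Cantor, fs.length = r → ∀ a : α,
    v fs [encode a] = if p fs a then 1 else 0

theorem Sh.congr {p q : List Cantor → α → Prop} (hp : Sh r p)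
    (h : ∀ fs, fs.length = r → ∀ a, p fs a ↔ q fs a) : Sh r q := by
  obtain ⟨v, hv, hp⟩ := hp
  refine ⟨v, hv, fun fs hfs a => ?_⟩
  rw [hp fs hfs a, if_congr (h fs hfs a) rfl rfl]

/-- Transfer of a primitive recursive function to codes. -/
noncomputable def trans (f : α → β) (n : ℕ) : ℕ := Nat.pred (encode ((decode (α := α) n).map f))

theorem trans_primrec {f : α → β} (hf : Primrec f) : Primrec (trans f) := by
  have h1 : Primrec (fun n : ℕ => (decode (α := α) n).map f) :=
    Primrec.option_map Primrec.decode (hf.comp Primrec.snd).to₂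
  exact Primrec.pred.comp (Primrec.encode.comp h1)

theorem trans_encode (f : α → β) (a : α) : trans f (encode a) = encode (f a) := by
  simp [trans]

theorem Sh.comp {p : List Cantor → α → Prop} (hp : Sh r p) {f : β → α} (hf : Primrec f) :
    Sh r (fun fs b => p fs (f b)) := by
  obtain ⟨v, hv, hp⟩ := hp
  refine ⟨fun fs as => v fs [trans f (as.getD 0 0)], ?_, ?_⟩
  · exact Val.comp [fun _ as => trans f (as.getD 0 0)] hv (by
      simpa using Val.fn1 (trans_primrec hf) (Val.proj r (i := 0) Nat.zero_lt_one))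
  · intro fs hfs b
    have : trans f ([encode b].getD 0 0) = encode (f b) := trans_encode f b
    show v fs [trans f ([encode b].getD 0 0)] = _
    rw [this, hp fs hfs]

theorem Sh.prim {p : α → Prop} (hp : PrimrecPred p) : Sh r (fun _ => p) := by
  have h1 : Primrec (fun a : α => if p a then 1 else 0 : α → ℕ) :=
    Primrec.ite hp (Primrec.const 1) (Primrec.const 0)
  refine ⟨fun fs as => trans (fun a : α => if p a then 1 else 0 : α → ℕ) (as.getD 0 0),
    Val.fn1 (trans_primrec h1) (Val.proj r Nat.zero_lt_one), fun fs _ a => ?_⟩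
  exact trans_encode (fun a : α => if p a then 1 else 0 : α → ℕ) a

theorem Sh.app {i : ℕ} (hi : i < r) {f : α → ℕ} (hf : Primrec f) :
    Sh r (fun fs a => (fs.getD i (fun _ => false)) (f a) = true) := by
  refine ⟨_, Val.app hi (Val.fn1 (trans_primrec hf) (Val.proj r Nat.zero_lt_one)), ?_⟩
  intro fs hfs a
  have : trans f ([encode a].getD 0 0) = f a := trans_encode f a
  show ((fs.getD i (fun _ => false)) (trans f ([encode a].getD 0 0))).toNat = _
  rw [this]
  by_cases h : (fs.getD i (fun _ => false)) (f a) = true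
  · rw [if_pos h, h]; rfl
  · rw [if_neg h, eq_false_of_ne_true h]; rfl

theorem Sh.not {p : List Cantor → α → Prop} (hp : Sh r p) : Sh r (fun fs a => ¬ p fs a) := by
  obtain ⟨v, hv, hp⟩ := hp
  refine ⟨_, Val.fn1 (f := fun n => 1 - n) (Primrec.nat_sub.comp (Primrec.const 1) Primrec.id) hv,
    fun fs hfs a => ?_⟩
  simp only [hp fs hfs a]
  by_cases h : p fs a <;> simp [h]

theorem Sh.and {p q : List Cantor → α → Prop} (hp : Sh r p) (hq : Sh r q) :
    Sh r (fun fs a => p fs a ∧ q fs a) := by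
  obtain ⟨v, hv, hp⟩ := hp
  obtain ⟨w, hw, hq⟩ := hq
  refine ⟨_, Val.fn2 (f := fun m n => m * n) Primrec.nat_mul hv hw, fun fs hfs a => ?_⟩
  simp only [hp fs hfs a, hq fs hfs a]
  by_cases h : p fs a <;> by_cases h' : q fs a <;> simp [h, h']

theorem Sh.or {p q : List Cantor → α → Prop} (hp : Sh r p) (hq : Sh r q) :
    Sh r (fun fs a => p fs a ∨ q fs a) :=
  (hp.not.and hq.not).not.congr fun fs _ a => by tauto

theorem Sh.imp {p q : List Cantor → α → Prop} (hp : Sh r p) (hq : Sh r q) :
    Sh r (fun fs a => p fs a → q fs a) :=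
  (hp.not.or hq).congr fun fs _ a => by tauto

theorem Sh.iff {p q : List Cantor → α → Prop} (hp : Sh r p) (hq : Sh r q) :
    Sh r (fun fs a => p fs a ↔ q fs a) :=
  ((hp.imp hq).and (hq.imp hp)).congr fun fs _ a => by tauto

theorem Sh.weaken {p : List Cantor → α → Prop} (hp : Sh r p) :
    Sh (r + 1) (fun fs a => p fs.tail a) := by
  obtain ⟨v, hv, hp⟩ := hp
  exact ⟨_, hv.weaken, fun fs hfs a => hp fs.tail (by simp [hfs]) a⟩

theorem Sh.ind {q : List Cantor → α × ℕ → Prop} (hq : Sh (r + 1) q) :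
    Sh r (fun fs (x : α × ℕ) => Ind (fun g m => B (q (g :: fs) (x.1, m))) x.2 = true) := by
  obtain ⟨v, hv, hq⟩ := hq
  -- the body
  have h1 : Val (r + 1) 2 (fun fs as =>
      v fs [Nat.pair (Nat.unpair (as.getD 1 0)).1 (as.getD 0 0)]) :=
    Val.comp [fun _ as => Nat.pair (Nat.unpair (as.getD 1 0)).1 (as.getD 0 0)] hv (by
      simpa using Val.fn2 Primrec₂.natPair (Val.fn1 (Primrec.fst.comp Primrec.unpair)
        (Val.proj (r + 1) (i := 1) (s := 2) (by omega)))
        (Val.proj (r + 1) (i := 0) (s := 2) (by omega)))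
  have h2 : Val r 1 (fun _ as => (Nat.unpair (as.getD 0 0)).2) :=
    Val.fn1 (Primrec.snd.comp Primrec.unpair) (Val.proj r Nat.zero_lt_one)
  refine ⟨_, Val.ind h1 h2, fun fs hfs x => ?_⟩
  have h3 : (fun g m => decide (v (g :: fs)
      [Nat.pair (Nat.unpair ((m :: [encode x]).getD 1 0)).1 ((m :: [encode x]).getD 0 0)] ≠ 0)) =
      (fun g m => B (q (g :: fs) (x.1, m))) := by
    funext g m
    obtain ⟨a, n⟩ := x
    have h4 : [Nat.pair (Nat.unpair ((m :: [encode (a, n)]).getD 1 0)).1
        ((m :: [encode (a, n)]).getD 0 0)] = [encode (a, m)] := by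
      simp [Encodable.encode_prod_val]
    rw [h4, hq (g :: fs) (by simp [hfs])]
    by_cases h : q (g :: fs) (a, m)
    · rw [if_pos h, B_iff.2 h]; rfl
    · rw [if_neg h, eq_false_of_ne_true (B_iff.not.2 h)]; rfl
  have h5 : (Nat.unpair ([encode x].getD 0 0)).2 = x.2 := by
    obtain ⟨a, n⟩ := x
    simp [Encodable.encode_prod_val]
  show (Ind (fun g m => decide (v (g :: fs)
      [Nat.pair (Nat.unpair ((m :: [encode x]).getD 1 0)).1 ((m :: [encode x]).getD 0 0)] ≠ 0))
      (Nat.unpair ([encode x].getD 0 0)).2).toNat = _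
  rw [h3, h5]
  by_cases h : Ind (fun g m => B (q (g :: fs) (x.1, m))) x.2 = true
  · rw [if_pos h, h]; rfl
  · rw [if_neg h, eq_false_of_ne_true h]; rfl

theorem ind_exists (p : ℕ → Prop) :
    Ind (fun g m => B (p m ∨ g (m + 1) = true)) 0 = true ↔ ∃ n, p n := by
  set F : Cantor → Cantor := fun g m => B (p m ∨ g (m + 1) = true) with hF
  constructor
  · intro h
    have h1 : Ind F ≤ fun m => B (∃ n, m ≤ n ∧ p n) := by
      apply ind_le
      intro g hg m
      apply B_le
      rintro (hm | hm)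
      · exact ⟨m, le_rfl, hm⟩
      · obtain ⟨n, hn, hp⟩ := of_le_B (hg (m + 1)) hm
        exact ⟨n, by omega, hp⟩
    obtain ⟨n, -, hn⟩ := of_le_B (h1 0) h
    exact ⟨n, hn⟩
  · rintro ⟨n, hn⟩
    have hc := ind_closed F
    have key : ∀ k ≤ n, Ind F (n - k) = true := by
      intro k
      induction k with
      | zero =>
        intro _
        exact of_B_le (hc n) (Or.inl hn)
      | succ k IH =>
        intro hk
        refine of_B_le (hc (n - (k + 1))) (Or.inr ?_)
        have h3 : n - (k + 1) + 1 = n - k := by omega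
        rw [h3]
        exact IH (by omega)
    simpa using key n le_rfl

theorem Sh.ex {p : List Cantor → α × ℕ → Prop} (hp : Sh r p) :
    Sh r (fun fs a => ∃ n, p fs (a, n)) := by
  have h1 : Sh (r + 1) (fun fs (x : α × ℕ) => p fs.tail x ∨
      (fs.getD 0 (fun _ => false)) (x.2 + 1) = true) :=
    hp.weaken.or (Sh.app (Nat.succ_pos r) (Primrec.succ.comp Primrec.snd))
  have h2 := h1.ind.comp (f := fun a : α => (a, 0)) (Primrec.pair Primrec.id (Primrec.const 0))
  refine h2.congr fun fs _ a => ?_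
  exact ind_exists (fun n => p fs (a, n))

theorem Sh.all {p : List Cantor → α × ℕ → Prop} (hp : Sh r p) :
    Sh r (fun fs a => ∀ n, p fs (a, n)) :=
  hp.not.ex.not.congr fun fs _ a => by simp

theorem ind_acc (R : ℕ → ℕ → Prop) (n : ℕ) :
    Ind (fun g m => B (∀ k, R k m → g k = true)) n = true ↔ Acc R n := by
  set F : Cantor → Cantor := fun g m => B (∀ k, R k m → g k = true) with hF
  constructor
  · intro h
    have h1 : Ind F ≤ fun m => B (Acc R m) := by
      apply ind_le
      intro g hg m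
      apply B_le
      intro hm
      exact ⟨m, fun k hk => of_le_B (hg k) (hm k hk)⟩
    exact of_le_B (h1 n) h
  · intro h
    induction h with
    | intro m _ IH => exact of_B_le (ind_closed F m) IH

/-- Well-foundedness. -/
theorem Sh.wf {p : List Cantor → (α × ℕ) × ℕ → Prop} (hp : Sh r p) :
    Sh r (fun fs a => WellFounded (fun k m => p fs ((a, m), k))) := by
  have h1 : Sh (r + 1) (fun fs (x : (α × ℕ) × ℕ) => p fs.tail x →
      (fs.getD 0 (fun _ => false)) x.2 = true) :=
    hp.weaken.imp (Sh.app (Nat.succ_pos r) Primrec.snd)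
  have h2 := h1.all.ind.all
  refine h2.congr fun fs _ a => ?_
  have h3 : ∀ n, Ind (fun g m => B (∀ k, p fs ((a, m), k) → g k = true)) n = true ↔
      Acc (fun k m => p fs ((a, m), k)) n := fun n =>
    ind_acc (fun k m => p fs ((a, m), k)) n
  constructor
  · intro h
    exact ⟨fun n => (h3 n).1 (h n)⟩
  · intro h n
    exact (h3 n).2 (h.apply n)

end Sh

end Run7.h922.K
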